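import Mathlib

/-!
# The asymptotic form of the bounds
-/

set_option autoImplicit false
set_option maxHeartbeats 1000000

namespace Run7.h370

/-- The asymptotic form, base `b`. -/
theorem asympZ (b : ℝ) (hb : 2 ≤ b) (δ : ℝ) (hδ : 0 < δ) :
    ∃ c : ℝ, 0 < c ∧ ∀ (p k ℓ : ℕ) (D : ℝ), 0 < p → 0 < k →
    b ^ (δ * p) ≤ D →
    (∀ t : ℕ, 0 < t → t ^ (k - 1) < p →
      D ≤ ((k : ℝ) * b ^ ℓ) ^ (t ^ (k - 1)) * b ^ (4 * (p / t))) →
    c * Real.log (p / (ℓ + 1)) ≤ k := by
  obtain ⟨t, ht⟩ := exists_nat_gt (8 / δ)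
  have ht0 : (0 : ℝ) < t := lt_trans (by positivity) ht
  have ht0' : 0 < t := by exact_mod_cast ht0
  have ht1 : (1 : ℝ) ≤ t := by exact_mod_cast ht0'
  have hb0 : 0 < b := by linarith
  have hL : 0 < Real.log b := Real.log_pos (by linarith)
  set C₀ : ℝ := max 1 (4 / δ) with hC₀
  have hC1 : 1 ≤ C₀ := le_max_left _ _
  have hl1 : 0 < Real.log (2 * t) := by
    apply Real.log_pos
    linarith
  have hl2 : 0 ≤ Real.log C₀ := Real.log_nonneg hC1
  refine ⟨(Real.log (2 * t) + Real.log C₀)⁻¹, by positivity, ?_⟩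
  intro p k ℓ D hp hk hD h
  have hk1 : (1 : ℝ) ≤ k := by exact_mod_cast hk
  have hℓ1 : (0 : ℝ) ≤ ℓ := by positivity
  have hp0 : (0 : ℝ) < p := by exact_mod_cast hp
  have htk2 : (t : ℝ) ^ (k - 1) ≤ (t : ℝ) ^ k := pow_le_pow_right₀ ht1 (by omega)
  -- the main inequality
  have key : (p : ℝ) ≤ (2 * t) ^ k * C₀ * (ℓ + 1) := by
    have h2k : (t : ℝ) ^ k ≤ (2 * t) ^ k := pow_le_pow_left₀ ht0.le (by linarith) _
    have h3k : (0 : ℝ) < (2 * t) ^ k := by positivity
    by_cases htk : t ^ (k - 1) < p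
    swap
    · have h1 : (p : ℝ) ≤ (t : ℝ) ^ (k - 1) := by exact_mod_cast not_lt.1 htk
      have h4 : (2 * (t : ℝ)) ^ k ≤ (2 * t) ^ k * C₀ := le_mul_of_one_le_right h3k.le hC1
      have h5 : (2 * (t : ℝ)) ^ k * C₀ ≤ (2 * t) ^ k * C₀ * (ℓ + 1) :=
        le_mul_of_one_le_right (by positivity) (by linarith)
      linarith
    · have h1 := hD.trans (h t ht0' htk)
      have h2 := Real.log_le_log (Real.rpow_pos_of_pos hb0 _) h1
      have hpos1 : (0 : ℝ) < ((k : ℝ) * b ^ ℓ) ^ (t ^ (k - 1)) := by positivity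
      have hpos2 : (0 : ℝ) < b ^ (4 * (p / t)) := by positivity
      rw [Real.log_rpow hb0, Real.log_mul hpos1.ne' hpos2.ne', Real.log_pow, Real.log_pow,
        Real.log_mul (by positivity) (by positivity), Real.log_pow] at h2
      push_cast at h2
      have hlk : Real.log k ≤ k * Real.log b := by
        have h6 : (k : ℝ) ≤ b ^ k := by
          calc (k : ℝ) ≤ 2 ^ k := by exact_mod_cast (Nat.lt_two_pow_self).le
            _ ≤ b ^ k := pow_le_pow_left₀ (by norm_num) hb _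
        have h7 := Real.log_le_log (by linarith) h6
        rwa [Real.log_pow] at h7
      have h8 : (t : ℝ) ^ (k - 1) * (Real.log k + ℓ * Real.log b) ≤
          (t : ℝ) ^ (k - 1) * ((k + ℓ) * Real.log b) :=
        mul_le_mul_of_nonneg_left (by linarith) (by positivity)
      have h9 : (δ * p) * Real.log b ≤
          ((t : ℝ) ^ (k - 1) * (k + ℓ) + 4 * ((p / t : ℕ) : ℝ)) * Real.log b := by
        linarith
      have h10 : δ * p ≤ (t : ℝ) ^ (k - 1) * (k + ℓ) + 4 * ((p / t : ℕ) : ℝ) :=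
        le_of_mul_le_mul_right h9 hL
      have h3 : ((p / t : ℕ) : ℝ) ≤ p / t := Nat.cast_div_le
      have h4 : (p : ℝ) / t ≤ p * δ / 8 := by
        rw [div_le_div_iff₀ ht0 (by norm_num)]
        have : 8 < δ * t := by
          rw [div_lt_iff₀ hδ] at ht
          linarith
        nlinarith
      have h7 : (k : ℝ) ≤ 2 ^ k := by exact_mod_cast (Nat.lt_two_pow_self).le
      have h7' : (1 : ℝ) ≤ 2 ^ k := one_le_pow₀ (by norm_num)
      have h11 : (k : ℝ) + ℓ ≤ 2 * (2 ^ k * (ℓ + 1)) := by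
        have e2 : (2 : ℝ) ^ k * 1 ≤ 2 ^ k * (ℓ + 1) := by gcongr; linarith
        have e3 : (ℓ : ℝ) ≤ 2 ^ k * (ℓ + 1) := by nlinarith
        linarith
      have h12 : δ * p / 2 ≤ 2 * ((t : ℝ) ^ k * 2 ^ k * (ℓ + 1)) := by
        have e1 := mul_le_mul htk2 h11 (by positivity) (by positivity)
        nlinarith
      have h13 : (2 * (t : ℝ)) ^ k = (t : ℝ) ^ k * 2 ^ k := by rw [mul_pow, mul_comm]
      rw [h13]
      have h14 : (p : ℝ) ≤ ((t : ℝ) ^ k * 2 ^ k) * (4 / δ) * (ℓ + 1) := by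
        rw [mul_div_assoc', div_mul_eq_mul_div, le_div_iff₀ hδ]
        linarith
      refine h14.trans ?_
      refine mul_le_mul_of_nonneg_right ?_ (by positivity)
      exact mul_le_mul_of_nonneg_left (le_max_right _ _) (by positivity)
  have h1 : Real.log (p / (ℓ + 1)) ≤ Real.log ((2 * t) ^ k * C₀) := by
    apply Real.log_le_log (by positivity)
    rw [div_le_iff₀ (by positivity)]
    exact key
  rw [Real.log_mul (by positivity) (by positivity), Real.log_pow] at h1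
  rw [inv_mul_le_iff₀ (by positivity)]
  nlinarith

end Run7.h370
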