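import Pool.Agent.Run7.h370.Cyc

/-!
# Common divisors of sparse numbers and `b ^ (2 ^ m) + 1`
-/

set_option autoImplicit false
set_option maxHeartbeats 1000000

namespace Run7.h370

open Polynomial Finset

/-- Roots of a unit of finite order. -/
theorem exists_root' {G : Type*} [CommGroup G] (Q q : ℕ) (hcop : Nat.Coprime q Q)
    (u : G) (hu : u ^ Q = 1) : ∃ y : G, y ^ q = u ∧ y ^ Q = 1 := by
  have hbez : (q : ℤ) * Nat.gcdA q Q + Q * Nat.gcdB q Q = 1 := by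
    have := Nat.gcd_eq_gcd_ab q Q
    rw [hcop] at this
    exact_mod_cast this.symm
  have hup : u ^ (Q : ℤ) = 1 := by rw [zpow_natCast, hu]
  refine ⟨u ^ Nat.gcdA q Q, ?_, ?_⟩
  · rw [← zpow_natCast, ← zpow_mul, mul_comm,
      show (q : ℤ) * Nat.gcdA q Q = 1 - Q * Nat.gcdB q Q by linarith,
      zpow_sub, zpow_one, zpow_mul, hup, one_zpow, inv_one, mul_one]
  · rw [← zpow_natCast, ← zpow_mul, mul_comm, zpow_mul, hup, one_zpow]

/-- The main theorem for generalised Fermat numbers. -/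
theorem fermatMain (b : ℤ) (hb : 2 ≤ b) (hbp : ∀ (ℓ : ℕ) (c : ℤ), 3 ≤ ℓ → Odd ℓ → c ^ ℓ ≠ b) (m : ℕ)
    (S : Finset ℕ) (u : ℕ → ℤ) (t : ℕ) (ht : 0 < t) (hts : t ^ (S.card - 1) < 2 ^ (m + 1))
    (d : ℤ) (hd : d ∣ ∑ i ∈ S, u i * b ^ i) (hdM : d ∣ b ^ (2 ^ m) + 1)
    (hnd : ¬ b ^ (2 ^ m) + 1 ∣ ∑ i ∈ S, u i * b ^ i) :
    |d| ≤ (∑ i ∈ S, |u i|) ^ (t ^ (S.card - 1)) * b ^ (2 * (2 ^ (m + 1) / t)) := by
  classical
  -- the sum of the coefficients
  have hS : S.Nonempty := by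
    by_contra h
    rw [Finset.not_nonempty_iff_eq_empty] at h
    subst h
    simp at hnd
  have hW1 : 1 ≤ ∑ i ∈ S, |u i| := by
    by_contra hcon
    apply hnd
    have h0 : ∀ i ∈ S, u i = 0 := by
      intro i hi
      have h1 : |u i| ≤ ∑ i ∈ S, |u i| :=
        Finset.single_le_sum (f := fun i => |u i|) (fun i _ => abs_nonneg _) hi
      have h2 : |u i| = 0 := by
        have := abs_nonneg (u i)
        omega
      exact abs_eq_zero.1 h2
    rw [Finset.sum_eq_zero fun i hi => by rw [h0 i hi, zero_mul]]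
    exact dvd_zero _
  obtain ⟨i₀, hi₀⟩ := hS
  have hcard : (S.erase i₀).card = S.card - 1 := Finset.card_erase_of_mem hi₀
  obtain ⟨q, r, hq0, hqt, hr, hρ⟩ := dirichlet (2 ^ (m + 1)) t (by positivity) ht (S.erase i₀)
    (fun i => (i : ℤ) - (i₀ : ℤ)) (by rw [hcard]; exact hts)
  rw [hcard] at hqt
  have hqQ : q < 2 ^ (m + 1) := by omega
  obtain ⟨E, q', hq', rfl⟩ : ∃ E q' : ℕ, Odd q' ∧ q = 2 ^ E * q' := by
    obtain ⟨E, q', h1, h2⟩ := Nat.exists_eq_two_pow_mul_odd hq0.ne'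
    exact ⟨E, q', h1, h2⟩
  have hq'0 : 0 < q' := hq'.pos
  have hEm : E ≤ m := by
    have h1 : 2 ^ E < 2 ^ (m + 1) := lt_of_le_of_lt (Nat.le_mul_of_pos_right _ hq'0) hqQ
    have := (Nat.pow_lt_pow_iff_right (by norm_num : 1 < 2)).1 h1
    omega
  obtain ⟨F, rfl⟩ := Nat.exists_eq_add_of_le hEm
  -- the exponents
  have hex : ∀ j ∈ S, ∃ r' k : ℤ, q' * ((j : ℤ) - (i₀ : ℤ)) = r' + 2 ^ F * (2 * k) ∧
      |r'| ≤ ((2 ^ (E + F + 1) / t / 2 ^ E : ℕ) : ℤ) := by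
    intro j hj
    by_cases h : j = i₀
    · refine ⟨0, 0, by rw [h]; ring, by rw [abs_zero]; positivity⟩
    · have hj' : j ∈ S.erase i₀ := Finset.mem_erase.2 ⟨h, hj⟩
      obtain ⟨k, hk⟩ := (hr j hj').dvd
      have h1 := hρ j hj'
      have h2 : ((2 ^ E : ℕ) : ℤ) ∣ r j := by
        have h3 : r j = ((2 ^ E : ℕ) : ℤ) * (q' * ((j : ℤ) - (i₀ : ℤ)) - 2 ^ (F + 1) * k) := by
          push_cast at hk ⊢
          have : (2 : ℤ) ^ (E + F + 1) = 2 ^ E * 2 ^ (F + 1) := by rw [← pow_add, add_assoc]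
          rw [this] at hk
          linear_combination -hk
        exact ⟨_, h3⟩
      obtain ⟨r', hr'⟩ := h2
      have hE0 : (0 : ℤ) < ((2 ^ E : ℕ) : ℤ) := by positivity
      refine ⟨r', k, ?_, ?_⟩
      · apply mul_left_cancel₀ hE0.ne'
        rw [hr'] at hk
        push_cast at hk ⊢
        have : (2 : ℤ) ^ (E + F + 1) = 2 ^ E * 2 ^ F * 2 := by ring
        rw [this] at hk
        linear_combination hk
      · rw [hr', abs_mul, abs_of_pos hE0] at h1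
        have h4 : |r'| = ((r'.natAbs : ℕ) : ℤ) := Int.abs_eq_natAbs r'
        rw [h4] at h1 ⊢
        have h5 : 2 ^ E * r'.natAbs ≤ 2 ^ (E + F + 1) / t := by exact_mod_cast h1
        have h6 : r'.natAbs ≤ 2 ^ (E + F + 1) / t / 2 ^ E := by
          rw [Nat.le_div_iff_mul_le (by positivity), mul_comm]
          exact h5
        exact_mod_cast h6
  choose! r' k hk1 hk2 using hex
  have hdom := domE E
  -- the root of unity
  have hz2 : (AdjoinRoot.root (cyc ℤ E)) ^ (2 ^ (E + 1)) = 1 := by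
    rw [pow_succ, pow_mul, rootE, neg_one_sq]
  obtain ⟨ζ, hζ⟩ : ∃ ζ : (RE E)ˣ, (ζ : RE E) = AdjoinRoot.root (cyc ℤ E) :=
    ⟨Units.ofPowEqOne _ _ hz2 (by positivity), rfl⟩
  have hcore := core2 (incE E) (incE_inj E) (b : RE E) q' (2 ^ (E + F + 1) / t / 2 ^ E) hq'0
    (irrE E b hbp q' hq') S (fun j => ((u j : ℤ) : RE E) * ((ζ ^ (2 * k j) : (RE E)ˣ) : RE E)) r' hk2
  -- the ring homomorphisms
  have hhom : ∀ D : ℤ, D ∣ b ^ (2 ^ (E + F)) + 1 → ∃ (π : RE E →+* ℤ ⧸ Ideal.span {D})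
      (y : (ℤ ⧸ Ideal.span {D})ˣ), (y : ℤ ⧸ Ideal.span {D}) ^ q' = π (b : RE E) ∧
      ∃ v : (ℤ ⧸ Ideal.span {D})ˣ,
      ∑ j ∈ S, π (((u j : ℤ) : RE E) * ((ζ ^ (2 * k j) : (RE E)ˣ) : RE E)) *
        ((y ^ r' j : (ℤ ⧸ Ideal.span {D})ˣ) : ℤ ⧸ Ideal.span {D}) =
        (v : ℤ ⧸ Ideal.span {D}) * Ideal.Quotient.mk (Ideal.span {D}) (∑ i ∈ S, u i * b ^ i) := by
    intro D hD
    have hDz : ∀ z : ℤ, Ideal.Quotient.mk (Ideal.span {D}) z = ((z : ℤ) : ℤ ⧸ Ideal.span {D}) := by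
      intro z
      simp
    have h0 : ((b : ℤ) : ℤ ⧸ Ideal.span {D}) ^ (2 ^ (E + F)) = -1 := by
      have h1 := Ideal.Quotient.eq_zero_iff_mem.2 (Ideal.mem_span_singleton.2 hD)
      rw [hDz] at h1
      push_cast at h1
      exact eq_neg_of_add_eq_zero_left h1
    have h00 : ((b : ℤ) : ℤ ⧸ Ideal.span {D}) ^ (2 ^ (E + F + 1)) = 1 := by
      rw [pow_succ, pow_mul, h0, neg_one_sq]
    obtain ⟨β, hβ⟩ : ∃ β : (ℤ ⧸ Ideal.span {D})ˣ, (β : ℤ ⧸ Ideal.span {D}) = ((b : ℤ) : ℤ ⧸ Ideal.span {D}) :=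
      ⟨Units.ofPowEqOne _ _ h00 (by positivity), rfl⟩
    have hβQ : β ^ (2 ^ (E + F + 1)) = 1 := by
      ext; rw [Units.val_pow_eq_pow_val, hβ, h00, Units.val_one]
    have hβn : β ^ (2 ^ (E + F)) = -1 := by
      ext; rw [Units.val_pow_eq_pow_val, hβ, h0, Units.val_neg, Units.val_one]
    obtain ⟨y, hy1, hy2⟩ := exists_root' (2 ^ (E + F + 1)) q'
      (Nat.Coprime.pow_right _ (Nat.coprime_two_right.2 hq')) β hβQ
    have hyn : y ^ (2 ^ (E + F)) = -1 := by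
      have h1 : (y ^ (2 ^ (E + F))) ^ q' = -1 := by rw [← pow_mul, mul_comm, pow_mul, hy1, hβn]
      have h2 : (y ^ (2 ^ (E + F))) ^ 2 = 1 := by rw [← pow_mul, ← pow_succ, hy2]
      obtain ⟨x, hx⟩ := hq'
      rw [hx, pow_succ, pow_mul, h2, one_pow, one_mul] at h1
      exact h1
    obtain ⟨η, hη⟩ : ∃ η : (ℤ ⧸ Ideal.span {D})ˣ, η = y ^ (2 ^ F) := ⟨_, rfl⟩
    have hηE : η ^ (2 ^ E) = -1 := by rw [hη, ← pow_mul, ← pow_add, add_comm F E, hyn]
    have hlift : (cyc ℤ E).eval₂ (Int.castRingHom (ℤ ⧸ Ideal.span {D})) (η : ℤ ⧸ Ideal.span {D}) = 0 := by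
      simp only [cyc, eval₂_add, eval₂_pow, eval₂_X, eval₂_one]
      rw [← Units.val_pow_eq_pow_val, hηE]
      simp
    obtain ⟨π, hπ⟩ : ∃ π : RE E →+* ℤ ⧸ Ideal.span {D}, π = AdjoinRoot.lift _ _ hlift := ⟨_, rfl⟩
    have hπζ : π (ζ : RE E) = (η : ℤ ⧸ Ideal.span {D}) := by
      rw [hζ, hπ, AdjoinRoot.lift_root]
    have hπz : ∀ x : ℤ, π (((ζ ^ x : (RE E)ˣ)) : RE E) = ((η ^ x : (ℤ ⧸ Ideal.span {D})ˣ) : ℤ ⧸ Ideal.span {D}) := by
      intro x
      have h1 : Units.map (π : RE E →* ℤ ⧸ Ideal.span {D}) ζ = η := by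
        ext; exact hπζ
      rw [← h1, ← map_zpow]
      rfl
    refine ⟨π, y, ?_, β ^ (-(i₀ : ℤ)), ?_⟩
    · rw [← Units.val_pow_eq_pow_val, hy1, hβ, map_intCast]
    · rw [hDz, Int.cast_sum, Finset.mul_sum]
      refine Finset.sum_congr rfl fun j hj => ?_
      rw [map_mul, hπz, map_intCast, mul_assoc, ← Units.val_mul]
      have h1 : η ^ (2 * k j) * y ^ r' j = β ^ (-(i₀ : ℤ)) * β ^ (j : ℤ) := by
        rw [← zpow_add, show -(i₀ : ℤ) + j = j - i₀ by ring, hη, ← hy1]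
        rw [← zpow_natCast y q', ← zpow_natCast y (2 ^ F), ← zpow_mul, ← zpow_mul, ← zpow_add]
        rw [hk1 j hj]
        congr 1
        push_cast
        ring
      rw [h1, Units.val_mul, zpow_natCast β j, Units.val_pow_eq_pow_val, hβ]
      push_cast
      ring
  rcases hcore with h | ⟨ν, hν0, hν, hbd⟩
  · exfalso
    apply hnd
    obtain ⟨π, y, hy, v, hsum⟩ := hhom _ dvd_rfl
    have h1 := h _ π y hy
    rw [hsum, Units.mul_right_eq_zero, Ideal.Quotient.eq_zero_iff_mem, Ideal.mem_span_singleton] at h1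
    exact h1
  · obtain ⟨π, y, hy, v, hsum⟩ := hhom _ hdM
    have h1 := hν _ π y hy (by
      rw [hsum, Ideal.Quotient.eq_zero_iff_mem.2 (Ideal.mem_span_singleton.2 hd), mul_zero])
    obtain ⟨n, hn0, hn1, hn2⟩ := normE E ν hν0
      ((b : ℝ) ^ (2 * (2 ^ (E + F + 1) / t / 2 ^ E)) * ((∑ i ∈ S, |u i| : ℤ) : ℝ) ^ q') (by
        intro σ
        refine (hbd σ).trans ?_
        have hσb : ‖σ ((b : ℤ) : RE E)‖ = (b : ℝ) := by
          rw [map_intCast, Complex.norm_intCast, abs_of_pos]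
          exact_mod_cast (by omega : (0 : ℤ) < b)
        have hσζ : ‖σ (ζ : RE E)‖ = 1 := by
          have h3 : (σ (ζ : RE E)) ^ (2 ^ (E + 1)) = 1 := by rw [hζ, ← map_pow, hz2, map_one]
          exact Complex.norm_eq_one_of_pow_eq_one h3 (by positivity)
        have hσz : ∀ x : ℤ, ‖σ (((ζ ^ x : (RE E)ˣ)) : RE E)‖ = 1 := by
          intro x
          have h3 : σ (((ζ ^ x : (RE E)ˣ)) : RE E) =
              ((Units.map (σ : RE E →* ℂ) ζ ^ x : ℂˣ) : ℂ) := by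
            rw [← map_zpow]; rfl
          rw [h3, Units.val_zpow_eq_zpow_val, norm_zpow]
          have h4 : ‖((Units.map (σ : RE E →* ℂ) ζ : ℂˣ) : ℂ)‖ = 1 := hσζ
          rw [h4, one_zpow]
        have hb1 : (1 : ℝ) ≤ (b : ℝ) := by exact_mod_cast (by omega : (1 : ℤ) ≤ b)
        rw [hσb, max_eq_right hb1]
        refine le_of_eq ?_
        congr 2
        rw [Int.cast_sum]
        refine Finset.sum_congr rfl fun j _ => ?_
        rw [map_mul, norm_mul, hσz, mul_one, map_intCast, Complex.norm_intCast, Int.cast_abs])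
    have h2 := hn2 _ π h1
    have h3 : d ∣ n := by
      have h4 : Ideal.Quotient.mk (Ideal.span {d}) n = 0 := by
        rw [← h2]; simp
      rwa [Ideal.Quotient.eq_zero_iff_mem, Ideal.mem_span_singleton] at h4
    have h5 : |d| ≤ |n| := by
      have := Int.natAbs_le_of_dvd_ne_zero h3 hn0
      rw [Int.abs_eq_natAbs, Int.abs_eq_natAbs]; exact_mod_cast this
    refine h5.trans ?_
    have h6 : |n| ≤ (b ^ (2 * (2 ^ (E + F + 1) / t / 2 ^ E)) * (∑ i ∈ S, |u i|) ^ q') ^ 2 ^ E := by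
      exact_mod_cast hn1
    refine h6.trans ?_
    rw [mul_pow, ← pow_mul, ← pow_mul, mul_comm]
    have h7 : 2 * (2 ^ (E + F + 1) / t / 2 ^ E) * 2 ^ E ≤ 2 * (2 ^ (E + F + 1) / t) := by
      rw [mul_assoc]
      exact Nat.mul_le_mul_left _ (Nat.div_mul_le_self _ _)
    have h8 : q' * 2 ^ E ≤ t ^ (S.card - 1) := by rw [mul_comm]; exact hqt
    refine mul_le_mul (pow_le_pow_right₀ hW1 h8) (pow_le_pow_right₀ (by omega) h7) (by positivity)
      (by positivity)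

end Run7.h370
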