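import Pool.Agent.Run7.h370.Int
import Pool.Agent.Run7.h370.Fer
import Pool.Agent.Run7.h370.Asym

/-!
# General bases: the statements with the greatest common divisor
-/

set_option autoImplicit false
set_option maxHeartbeats 1000000

namespace Run7.h370

open Finset

/-- A squarefree number is not a perfect power, and neither is its negative. -/
theorem no_pow (g : ℕ) (hg : Squarefree g) (h1 : g ≠ 1) (ℓ : ℕ) (c : ℤ) (hℓ : 2 ≤ ℓ) :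
    c ^ ℓ ≠ (g : ℤ) ∧ c ^ ℓ ≠ -(g : ℤ) := by
  have key : c.natAbs ^ ℓ ≠ g := by
    intro h
    have h2 : c.natAbs * c.natAbs ∣ g := by
      rw [← h, ← pow_two]
      exact pow_dvd_pow _ hℓ
    have h3 := Nat.isUnit_iff.1 (hg _ h2)
    rw [h3, one_pow] at h
    exact h1 h.symm
  constructor
  · intro h
    apply key
    have := congrArg Int.natAbs h
    rwa [Int.natAbs_pow, Int.natAbs_natCast] at this
  · intro h
    apply key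
    have := congrArg Int.natAbs h
    rwa [Int.natAbs_pow, Int.natAbs_neg, Int.natAbs_natCast] at this

/-- The bound on the greatest common divisor implies the asymptotic statement. -/
theorem asymGcd (b : ℕ) (hb : 2 ≤ b) (δ : ℝ) (hδ : 0 < δ) :
    ∃ c : ℝ, 0 < c ∧ ∀ (Q : ℕ) (M : ℤ), 0 < Q → ∀ (S : Finset ℕ) (u : ℕ → ℤ) (ℓ : ℕ),
      (∀ i ∈ S, |u i| ≤ (b : ℤ) ^ ℓ) → ¬ M ∣ ∑ i ∈ S, u i * (b : ℤ) ^ i →
      (b : ℝ) ^ (δ * Q) ≤ (Int.gcd M (∑ i ∈ S, u i * (b : ℤ) ^ i) : ℝ) →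
      (∀ t : ℕ, 0 < t → t ^ (S.card - 1) < Q →
        (Int.gcd M (∑ i ∈ S, u i * (b : ℤ) ^ i) : ℤ) ≤
          (∑ i ∈ S, |u i|) ^ (t ^ (S.card - 1)) * (b : ℤ) ^ (2 * (Q / t))) →
      c * Real.log (Q / (ℓ + 1)) ≤ S.card := by
  have hb' : (2 : ℝ) ≤ b := by exact_mod_cast hb
  have hbz : (1 : ℤ) ≤ (b : ℤ) := by exact_mod_cast (by omega : 1 ≤ b)
  obtain ⟨c, hc0, hc⟩ := asympZ b hb' δ hδ
  refine ⟨c, hc0, fun Q M hQ S u ℓ hu hnd hbig hle => ?_⟩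
  have hS : 0 < S.card := by
    rw [Finset.card_pos]
    by_contra h
    rw [Finset.not_nonempty_iff_eq_empty] at h
    subst h
    simp at hnd
  refine hc Q S.card ℓ _ hQ hS hbig fun t ht htk => ?_
  have h1 := hle t ht htk
  have h2 : ∑ i ∈ S, |u i| ≤ (S.card : ℤ) * (b : ℤ) ^ ℓ := by
    rw [← nsmul_eq_mul]
    exact Finset.sum_le_card_nsmul _ _ _ hu
  have h3 : 0 ≤ ∑ i ∈ S, |u i| := Finset.sum_nonneg fun _ _ => abs_nonneg _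
  have h4 : (Int.gcd M (∑ i ∈ S, u i * (b : ℤ) ^ i) : ℤ) ≤
      ((S.card : ℤ) * (b : ℤ) ^ ℓ) ^ (t ^ (S.card - 1)) * (b : ℤ) ^ (4 * (Q / t)) := by
    refine h1.trans (mul_le_mul (pow_le_pow_left₀ h3 h2 _)
      (pow_le_pow_right₀ hbz (by omega)) (by positivity) (by positivity))
  exact_mod_cast h4

/-- `gcd` form of the main theorem, for `b ^ p - 1`. -/
theorem gcdMinus (b : ℕ) (hb : Squarefree b) (hb1 : 2 ≤ b) (p : ℕ) (hp : p.Prime) (S : Finset ℕ)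
    (u : ℕ → ℤ) (t : ℕ) (ht : 0 < t) (hts : t ^ (S.card - 1) < p)
    (hnd : ¬ (b : ℤ) ^ p - 1 ∣ ∑ i ∈ S, u i * (b : ℤ) ^ i) :
    (Int.gcd ((b : ℤ) ^ p - 1) (∑ i ∈ S, u i * (b : ℤ) ^ i) : ℤ) ≤
      (∑ i ∈ S, |u i|) ^ (t ^ (S.card - 1)) * (b : ℤ) ^ (2 * (p / t)) := by
  have h1 := intMain b (fun ℓ c hℓ => no_pow b hb (by omega) ℓ c hℓ) p hp S u t ht hts
    (Int.gcd ((b : ℤ) ^ p - 1) (∑ i ∈ S, u i * (b : ℤ) ^ i)) (Int.gcd_dvd_right _ _)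
    (Int.gcd_dvd_left _ _) hnd
  rwa [Nat.abs_cast, Nat.abs_cast] at h1

/-- `gcd` form of the main theorem, for `b ^ p + 1`. -/
theorem gcdPlus (b : ℕ) (hb : Squarefree b) (hb1 : 2 ≤ b) (p : ℕ) (hp : p.Prime) (hp2 : p ≠ 2)
    (S : Finset ℕ) (u : ℕ → ℤ) (t : ℕ) (ht : 0 < t) (hts : t ^ (S.card - 1) < p)
    (hnd : ¬ (b : ℤ) ^ p + 1 ∣ ∑ i ∈ S, u i * (b : ℤ) ^ i) :
    (Int.gcd ((b : ℤ) ^ p + 1) (∑ i ∈ S, u i * (b : ℤ) ^ i) : ℤ) ≤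
      (∑ i ∈ S, |u i|) ^ (t ^ (S.card - 1)) * (b : ℤ) ^ (2 * (p / t)) := by
  have hodd := hp.odd_of_ne_two hp2
  have e1 : (-(b : ℤ)) ^ p - 1 = -((b : ℤ) ^ p + 1) := by rw [hodd.neg_pow]; ring
  have e2 : ∑ i ∈ S, ((-1) ^ i * u i) * (-(b : ℤ)) ^ i = ∑ i ∈ S, u i * (b : ℤ) ^ i := by
    refine Finset.sum_congr rfl fun i _ => ?_
    rw [neg_pow (b : ℤ) i]
    have : ((-1 : ℤ) ^ i) * (-1) ^ i = 1 := by rw [← mul_pow]; simp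
    linear_combination (u i * (b : ℤ) ^ i) * this
  have h1 := intMain (-(b : ℤ)) (fun ℓ c hℓ => by
    have := no_pow b hb (by omega) ℓ c hℓ
    rw [neg_neg]
    exact ⟨this.2, this.1⟩) p hp S (fun i => (-1) ^ i * u i) t ht hts
    (Int.gcd ((b : ℤ) ^ p + 1) (∑ i ∈ S, u i * (b : ℤ) ^ i)) (by rw [e2]; exact Int.gcd_dvd_right _ _)
    (by rw [e1, dvd_neg]; exact Int.gcd_dvd_left _ _) (by rw [e1, e2, neg_dvd]; exact hnd)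
  rw [Nat.abs_cast, abs_neg, Nat.abs_cast] at h1
  have e3 : ∑ i ∈ S, |(-1) ^ i * u i| = ∑ i ∈ S, |u i| := by
    refine Finset.sum_congr rfl fun i _ => ?_
    rw [abs_mul, abs_pow, abs_neg, abs_one, one_pow, one_mul]
  rwa [e3] at h1

/-- `gcd` form of the main theorem, for `b ^ (2 ^ m) + 1`. -/
theorem gcdFermat (b : ℕ) (hb : Squarefree b) (hb1 : 2 ≤ b) (m : ℕ) (S : Finset ℕ)
    (u : ℕ → ℤ) (t : ℕ) (ht : 0 < t) (hts : t ^ (S.card - 1) < 2 ^ (m + 1))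
    (hnd : ¬ (b : ℤ) ^ (2 ^ m) + 1 ∣ ∑ i ∈ S, u i * (b : ℤ) ^ i) :
    (Int.gcd ((b : ℤ) ^ (2 ^ m) + 1) (∑ i ∈ S, u i * (b : ℤ) ^ i) : ℤ) ≤
      (∑ i ∈ S, |u i|) ^ (t ^ (S.card - 1)) * (b : ℤ) ^ (2 * (2 ^ (m + 1) / t)) := by
  have h1 := fermatMain b (by exact_mod_cast hb1)
    (fun ℓ c hℓ _ => (no_pow b hb (by omega) ℓ c (by omega)).1) m S u t ht hts
    (Int.gcd ((b : ℤ) ^ (2 ^ m) + 1) (∑ i ∈ S, u i * (b : ℤ) ^ i)) (Int.gcd_dvd_right _ _)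
    (Int.gcd_dvd_left _ _) hnd
  rwa [Nat.abs_cast] at h1

end Run7.h370
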