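import Mathlib

/-!
# Simultaneous approximation modulo `p`
-/

set_option autoImplicit false

namespace Run7.h370

/-- Simultaneous approximation of the residues `q * f i` modulo `p` by `0`. -/
theorem dirichlet {ι : Type*} (p t : ℕ) (hp : 0 < p) (ht : 0 < t) (S : Finset ι) (f : ι → ℤ)
    (h : t ^ S.card < p) :
    ∃ (q : ℕ) (r : ι → ℤ), 0 < q ∧ q ≤ t ^ S.card ∧ (∀ i ∈ S, r i ≡ q * f i [ZMOD p]) ∧
      ∀ i ∈ S, |r i| ≤ ((p / t : ℕ) : ℤ) := by
  classical
  obtain ⟨k, k', hkk, hk⟩ := Fintype.exists_ne_map_eq_of_card_lt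
    (f := fun k : Fin (t ^ S.card + 1) => fun i : S =>
      (⟨((((k : ℕ) : ℤ) * f i) % p).toNat * t / p, by
        rw [Nat.div_lt_iff_lt_mul hp, mul_comm t p]
        refine Nat.mul_lt_mul_of_pos_right ?_ ht
        have h1 := Int.emod_lt_of_pos (((k : ℕ) : ℤ) * f i) (by exact_mod_cast hp : (0 : ℤ) < p)
        have h2 := Int.emod_nonneg (((k : ℕ) : ℤ) * f i) (by exact_mod_cast hp.ne' : (p : ℤ) ≠ 0)
        omega⟩ : Fin t)) (by simp)
  wlog hlt : k < k' generalizing k k'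
  · exact this k' k hkk.symm hk.symm (lt_of_le_of_ne (not_lt.1 hlt) hkk.symm)
  have hlt' : (k : ℕ) < (k' : ℕ) := hlt
  refine ⟨k' - k, fun i => ((k' : ℕ) : ℤ) * f i % p - ((k : ℕ) : ℤ) * f i % p, by omega, by
    have := k'.isLt
    omega, ?_, ?_⟩
  · intro i _
    rw [Nat.cast_sub hlt'.le, sub_mul]
    exact (Int.mod_modEq _ _).sub (Int.mod_modEq _ _)
  · intro i hi
    have h1 := congrArg Fin.val (congrFun hk ⟨i, hi⟩)
    simp only at h1
    have a1 := Int.emod_lt_of_pos (((k : ℕ) : ℤ) * f i) (by exact_mod_cast hp : (0 : ℤ) < p)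
    have a2 := Int.emod_nonneg (((k : ℕ) : ℤ) * f i) (by exact_mod_cast hp.ne' : (p : ℤ) ≠ 0)
    have b1 := Int.emod_lt_of_pos (((k' : ℕ) : ℤ) * f i) (by exact_mod_cast hp : (0 : ℤ) < p)
    have b2 := Int.emod_nonneg (((k' : ℕ) : ℤ) * f i) (by exact_mod_cast hp.ne' : (p : ℤ) ≠ 0)
    obtain ⟨A, hA⟩ := Int.eq_ofNat_of_zero_le a2
    obtain ⟨B, hB⟩ := Int.eq_ofNat_of_zero_le b2
    rw [hA, hB] at h1
    beta_reduce
    rw [hA, hB]
    simp only [Int.toNat_natCast] at h1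
    have key : ∀ x y : ℕ, x * t / p = y * t / p → x - y ≤ p / t := by
      intro x y hxy
      rw [Nat.le_div_iff_mul_le ht, Nat.sub_mul]
      have e1 := Nat.div_add_mod (x * t) p
      have e2 := Nat.div_add_mod (y * t) p
      have e3 := Nat.mod_lt (x * t) hp
      rw [hxy] at e1
      omega
    have k1 := key A B h1
    have k2 := key B A h1.symm
    rw [abs_le]
    omega

end Run7.h370
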