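import Pool.Agent.N449.SQ.Arith

/-!
# Irreducible binomials
-/

set_option autoImplicit false
set_option maxHeartbeats 1000000

namespace Run7.h370

open Polynomial IntermediateField

universe u

theorem norm_gen {K : Type u} [Field K] (ℓ : ℕ) (hℓ : 0 < ℓ) (c : K) (E : Type u) [Field E] [Algebra K E]
    (x : E) (hx : minpoly K x = X ^ ℓ - C c) :
    IsIntegral K x ∧ Algebra.norm K (AdjoinSimple.gen K x) = (-1) ^ ℓ * (-c) := by
  have hi : IsIntegral K x := not_not.mp fun h ↦ by
    simpa only [degree_zero, degree_X_pow_sub_C hℓ,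
      WithBot.natCast_ne_bot] using congr_arg degree (hx.symm.trans (dif_neg h))
  refine ⟨hi, ?_⟩
  rw [← adjoin.powerBasis_gen hi, Algebra.PowerBasis.norm_gen_eq_coeff_zero_minpoly]
  simp [minpoly_gen, hx, hℓ.ne]

theorem norm_neg' {K : Type u} [Field K] (F : Type u) [Field F] [Algebra K F] (z : F) :
    Algebra.norm K (-z) = Algebra.norm K z ∨ Algebra.norm K (-z) = -Algebra.norm K z := by
  have h1 : -z = algebraMap K F (-1) * z := by simp
  rw [h1, map_mul, Algebra.norm_algebraMap]
  rcases neg_one_pow_eq_or K (Module.finrank K F) with h | h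
  · left; rw [h, one_mul]
  · right; rw [h, neg_one_mul]

/-- If neither `c` nor `-c` is a proper power then all the binomials `X ^ n - c` are irreducible. -/
theorem irr_pm {K : Type u} [Field K] (n : ℕ) (hn : 0 < n) (c : K)
    (h : ∀ ℓ : ℕ, ℓ.Prime → ∀ b : K, b ^ ℓ ≠ c ∧ b ^ ℓ ≠ -c) : Irreducible (X ^ n - C c) := by
  induction n using induction_on_primes generalizing K c with
  | zero => omega
  | one => simpa using irreducible_X_sub_C c
  | prime_mul p n hp IH =>
    rw [mul_comm]
    apply X_pow_mul_sub_C_irreducible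
      (X_pow_sub_C_irreducible_of_prime hp (fun b => (h p hp b).1))
    intro E _ _ x hx
    obtain ⟨hi, hN⟩ := norm_gen p hp.pos c E x hx
    have hN' : Algebra.norm K (AdjoinSimple.gen K x) = c ∨
        Algebra.norm K (AdjoinSimple.gen K x) = -c := by
      rcases neg_one_pow_eq_or K p with h1 | h1
      · right; rw [hN, h1, one_mul]
      · left; rw [hN, h1]; ring
    apply IH (Nat.pos_of_mul_pos_left hn)
    intro ℓ hℓ b
    constructor
    · intro hb
      have h1 := congrArg (Algebra.norm K) hb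
      rw [map_pow] at h1
      rcases hN' with h2 | h2
      · exact (h ℓ hℓ _).1 (h1.trans h2)
      · exact (h ℓ hℓ _).2 (h1.trans h2)
    · intro hb
      have h1 := congrArg (Algebra.norm K) hb
      rw [map_pow] at h1
      rcases norm_neg' (K := K) _ (AdjoinSimple.gen K x) with h3 | h3 <;> rcases hN' with h2 | h2 <;>
        rw [h3, h2] at h1
      · exact (h ℓ hℓ _).1 h1
      · exact (h ℓ hℓ _).2 h1
      · exact (h ℓ hℓ _).2 h1
      · exact (h ℓ hℓ _).1 (by rw [h1, neg_neg])

section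
open Pool.Agent.N449.SQ QuadraticAlgebra

variable {a : ℤ} (ha : 1 ≤ a)
include ha

theorem irr_om (hV : ∀ (T : ℤ) (r : ℕ), 1 ≤ T → 2 ≤ r → Odd r → V T r ≠ a) [Fact (∀ r : ℚ, r ^ 2 ≠ 1 + (a : ℚ) * r)] (n : ℕ) (hn : 0 < n) :
    Irreducible (X ^ n - C (ω : K a)) := by
  apply irr_pm n hn
  intro ℓ hℓ b
  exact ⟨fun h => no_root ha hV ℓ hℓ.two_le b (Or.inl h), fun h => no_root ha hV ℓ hℓ.two_le b (Or.inr h)⟩

/-- an odd root of `± ω ^ 2` -/
theorem no_root_sq (hV : ∀ (T : ℤ) (r : ℕ), 1 ≤ T → 2 ≤ r → Odd r → V T r ≠ a) (r : ℕ) (hr : 2 ≤ r)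
    (hr2 : Odd r) (θ : K a) (h : θ ^ r = ω ^ 2) : False := by
  have := fact ha
  have hω0 : (ω : K a) ≠ 0 := by
    intro h0
    have := t₁_om a
    rw [h0, map_zero] at this
    exact (eps_pos a).ne' this.symm
  obtain ⟨k, hk⟩ := hr2
  refine no_root ha hV r hr (ω * (θ ^ k)⁻¹) (Or.inl ?_)
  have e1 : θ ^ (r * k) = ω ^ (2 * k) := by rw [pow_mul, h, ← pow_mul]
  have h1 : (ω * (θ ^ k)⁻¹) ^ r = ω ^ r * (ω ^ (2 * k))⁻¹ := by
    rw [mul_pow, inv_pow, ← pow_mul, mul_comm k r, e1]
  rw [h1, hk, pow_succ, mul_comm (ω ^ (2 * k)) ω, mul_assoc, mul_inv_cancel₀ (pow_ne_zero _ hω0), mul_one]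

theorem irr_om_sq (hV : ∀ (T : ℤ) (r : ℕ), 1 ≤ T → 2 ≤ r → Odd r → V T r ≠ a)
    [Fact (∀ r : ℚ, r ^ 2 ≠ 1 + (a : ℚ) * r)] (n : ℕ) (hn : 0 < n) :
    Irreducible (X ^ n - C (-(ω : K a) ^ 2)) := by
  have hω0 : (ω : K a) ≠ 0 := by
    intro h0
    have := t₁_om a
    rw [h0, map_zero] at this
    exact (eps_pos a).ne' this.symm
  rcases Nat.even_or_odd' n with ⟨m, hm | hm⟩
  swap
  · apply X_pow_sub_C_irreducible_of_odd ⟨m, hm⟩
    intro ℓ hℓ hd b hb
    have hodd : Odd ℓ := Odd.of_dvd_nat ⟨m, hm⟩ hd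
    refine no_root_sq ha hV ℓ hℓ.two_le hodd (-b) ?_
    rw [hodd.neg_pow, hb, neg_neg]
  · rw [hm, mul_comm]
    apply X_pow_mul_sub_C_irreducible
    · apply X_pow_sub_C_irreducible_of_prime Nat.prime_two
      intro b hb
      have h1 := congrArg (t₁ a) hb
      rw [map_pow, map_neg, map_pow, t₁_om] at h1
      have := eps_pos a
      nlinarith [sq_nonneg (t₁ a b)]
    · intro E _ _ x hx
      obtain ⟨hi, hN⟩ := norm_gen 2 two_pos _ E x hx
      rw [neg_neg, neg_one_sq, one_mul] at hN
      have hxx : (AdjoinSimple.gen (K a) x) ^ 2 = algebraMap (K a) _ (-(ω : K a) ^ 2) := by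
        have h1 : aeval (AdjoinSimple.gen (K a) x) (minpoly (K a) (AdjoinSimple.gen (K a) x)) = 0 :=
          minpoly.aeval _ _
        rw [minpoly_gen, hx] at h1
        rw [map_sub, map_pow, aeval_X, aeval_C, sub_eq_zero] at h1
        exact h1
      apply irr_pm m (by omega)
      have main2 : ∀ b : (K a)⟮x⟯, ∀ c : K a, c ^ 2 = 1 →
          b ^ 2 ≠ algebraMap (K a) _ c * AdjoinSimple.gen (K a) x := by
        intro b c hc hb
        obtain ⟨f, hf, hbf⟩ := (adjoin.powerBasis hi).exists_eq_aeval b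
        have hf1 : f.natDegree ≤ 1 := by
          rw [adjoin.powerBasis_dim, hx, natDegree_X_pow_sub_C] at hf
          omega
        rw [adjoin.powerBasis_gen] at hbf
        obtain ⟨t, s, hts⟩ := Polynomial.exists_eq_X_add_C_of_natDegree_le_one hf1
        rw [hts, map_add, map_mul, aeval_X, aeval_C, aeval_C] at hbf
        set y := AdjoinSimple.gen (K a) x with hy
        have h2 : aeval y (C (2 * t * s - c) * X + C (s ^ 2 - t ^ 2 * (ω : K a) ^ 2)) = 0 := by
          rw [map_add, map_mul, aeval_X, aeval_C, aeval_C]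
          rw [hbf] at hb
          simp only [map_sub, map_mul, map_pow, map_ofNat, map_neg] at hb hxx ⊢
          linear_combination hb - (algebraMap (K a) _ t) ^ 2 * hxx
        have h3 : (C (2 * t * s - c) * X + C (s ^ 2 - t ^ 2 * (ω : K a) ^ 2)) = (0 : (K a)[X]) := by
          by_contra h0
          have h4 := minpoly.degree_le_of_ne_zero (K a) y h0 h2
          rw [hy, minpoly_gen, hx, degree_X_pow_sub_C two_pos] at h4
          have h5 := h4.trans degree_linear_le
          norm_cast at h5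
        obtain ⟨A, hA⟩ : ∃ A : K a, A = 2 * t * s - c := ⟨_, rfl⟩
        obtain ⟨B, hB⟩ : ∃ B : K a, B = s ^ 2 - t ^ 2 * (ω : K a) ^ 2 := ⟨_, rfl⟩
        rw [← hA, ← hB] at h3
        have h4 := congrArg (fun f => f.coeff 1) h3
        have h5 := congrArg (fun f => f.coeff 0) h3
        simp at h4 h5
        rw [hA] at h4
        rw [hB] at h5
        have h6 : (2 * t ^ 2 * (ω : K a)) ^ 2 = 1 := by
          linear_combination (-4 * t ^ 2) * h5 + (2 * t * s + c) * h4 + hc
        have h7 : 2 * t ^ 2 * (ω : K a) = 1 ∨ 2 * t ^ 2 * (ω : K a) = -1 := sq_eq_one_iff.1 h6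
        have h8 : QuadraticAlgebra.norm (2 * t ^ 2 * (ω : K a)) = 1 := by
          rcases h7 with h | h
          · rw [h, map_one]
          · rw [h, QuadraticAlgebra.norm_neg, map_one]
        rw [map_mul, map_mul, map_pow, norm_om] at h8
        have h9 : QuadraticAlgebra.norm (2 : K a) = 4 := by
          simp [QuadraticAlgebra.norm_def]; norm_num
        rw [h9] at h8
        nlinarith [sq_nonneg (QuadraticAlgebra.norm t)]
      intro ℓ hℓ b
      rcases hℓ.eq_two_or_odd' with h2 | h2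
      · subst h2
        exact ⟨fun h => main2 b 1 (by simp) (by simpa using h),
          fun h => main2 b (-1) (by simp) (by simpa using h)⟩
      · constructor
        · intro hb
          have h1 := congrArg (Algebra.norm (K a)) hb
          rw [map_pow, hN] at h1
          exact no_root_sq ha hV ℓ hℓ.two_le h2 _ h1
        · intro hb
          have h1 := congrArg (Algebra.norm (K a)) hb
          rw [map_pow] at h1
          rcases norm_neg' (K := K a) _ (AdjoinSimple.gen (K a) x) with h3 | h3 <;> rw [h3, hN] at h1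
          · exact no_root_sq ha hV ℓ hℓ.two_le h2 _ h1
          · refine no_root_sq ha hV ℓ hℓ.two_le h2 (-(Algebra.norm (K a) b)) ?_
            rw [h2.neg_pow, h1, neg_neg]

end

end Run7.h370
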