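import Pool.Agent.Run7.h370.Res
import Pool.Agent.Run7.h370.Irr
import Pool.Agent.Run7.h370.Comb

/-!
# Common divisors of sparse numbers and `g ^ p - 1`
-/

set_option autoImplicit false
set_option maxHeartbeats 1000000

namespace Run7.h370

open Polynomial Finset

/-- rational powers which are integers -/
theorem rat_pow (ℓ : ℕ) (hℓ : 0 < ℓ) (b : ℚ) (g : ℤ) (h : b ^ ℓ = (g : ℚ)) : ∃ c : ℤ, c ^ ℓ = g := by
  have h1 : IsIntegral ℤ b := by
    refine IsIntegral.of_pow hℓ ?_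
    rw [h]
    exact isIntegral_algebraMap
  obtain ⟨c, hc⟩ := IsIntegrallyClosed.isIntegral_iff.1 h1
  refine ⟨c, ?_⟩
  have h2 : (c : ℚ) = b := by simpa using hc
  have h3 : ((c ^ ℓ : ℤ) : ℚ) = (g : ℚ) := by push_cast; rw [h2, h]
  exact_mod_cast h3

theorem irr_int (g : ℤ) (hg : ∀ (ℓ : ℕ) (b : ℤ), 2 ≤ ℓ → b ^ ℓ ≠ g ∧ b ^ ℓ ≠ -g) (q : ℕ) (hq : 0 < q) :
    Irreducible (X ^ q - C ((Int.castRingHom ℚ) g) : ℚ[X]) := by
  apply irr_pm q hq
  intro ℓ hℓ b
  constructor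
  · intro h
    obtain ⟨c, hc⟩ := rat_pow ℓ hℓ.pos b g (by simpa using h)
    exact (hg ℓ c hℓ.two_le).1 hc
  · intro h
    obtain ⟨c, hc⟩ := rat_pow ℓ hℓ.pos b (-g) (by simpa using h)
    exact (hg ℓ c hℓ.two_le).2 hc

/-- The main theorem for integers. -/
theorem intMain (g : ℤ) (hg : ∀ (ℓ : ℕ) (b : ℤ), 2 ≤ ℓ → b ^ ℓ ≠ g ∧ b ^ ℓ ≠ -g) (p : ℕ)
    (hp : p.Prime) (S : Finset ℕ) (u : ℕ → ℤ) (t : ℕ) (ht : 0 < t) (hts : t ^ (S.card - 1) < p)
    (d : ℤ) (hd : d ∣ ∑ i ∈ S, u i * g ^ i) (hdM : d ∣ g ^ p - 1)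
    (hnd : ¬ g ^ p - 1 ∣ ∑ i ∈ S, u i * g ^ i) :
    |d| ≤ (∑ i ∈ S, |u i|) ^ (t ^ (S.card - 1)) * |g| ^ (2 * (p / t)) := by
  classical
  -- the size of `g`
  have hg2 : 2 ≤ |g| := by
    by_contra hcon
    push Not at hcon
    rw [abs_lt] at hcon
    have h0 := hg 2 0 le_rfl
    have h1 := hg 2 1 le_rfl
    norm_num at h0 h1
    omega
  -- the sum of the coefficients
  have hS : S.Nonempty := by
    by_contra h
    rw [Finset.not_nonempty_iff_eq_empty] at h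
    subst h
    simp at hnd
  have hW1 : 1 ≤ ∑ i ∈ S, |u i| := by
    by_contra hcon
    apply hnd
    have h0 : ∀ i ∈ S, u i = 0 := by
      intro i hi
      have h1 : |u i| ≤ ∑ i ∈ S, |u i| :=
        Finset.single_le_sum (f := fun i => |u i|) (fun i _ => abs_nonneg _) hi
      have h2 : |u i| = 0 := by
        have := abs_nonneg (u i)
        omega
      exact abs_eq_zero.1 h2
    rw [Finset.sum_eq_zero fun i hi => by rw [h0 i hi, zero_mul]]
    exact dvd_zero _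
  obtain ⟨i₀, hi₀⟩ := hS
  have hcard : (S.erase i₀).card = S.card - 1 := Finset.card_erase_of_mem hi₀
  obtain ⟨q, r, hq0, hqt, hr, hρ⟩ := dirichlet p t hp.pos ht (S.erase i₀)
    (fun i => (i : ℤ) - (i₀ : ℤ)) (by rw [hcard]; exact hts)
  rw [hcard] at hqt
  have hqp : q < p := by omega
  have hcore := core (Int.castRingHom ℚ) (RingHom.injective_int _) g p q (p / t) hp hq0 hqp
    (irr_int g hg q hq0) S u (fun i => (i : ℤ) - (i₀ : ℤ)) (fun i => if i = i₀ then 0 else r i)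
    (by
      intro j hj
      by_cases h : j = i₀
      · simp only [h, if_true, sub_self, mul_zero]
        exact Int.ModEq.refl _
      · simp only [h, if_false]
        exact hr j (Finset.mem_erase.2 ⟨h, hj⟩))
    (by
      intro j hj
      by_cases h : j = i₀
      · simp only [h, if_true, abs_zero]
        positivity
      · simp only [h, if_false]
        exact hρ j (Finset.mem_erase.2 ⟨h, hj⟩))
  -- a unit in the quotients
  have hunit : ∀ J : Ideal ℤ, g ^ p - 1 ∈ J → ∃ v : (ℤ ⧸ J)ˣ,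
      (v : ℤ ⧸ J) = Ideal.Quotient.mk J g ∧ v ^ p = 1 ∧
      ∑ j ∈ S, Ideal.Quotient.mk J (u j) * ((v ^ ((j : ℤ) - (i₀ : ℤ)) : (ℤ ⧸ J)ˣ) : ℤ ⧸ J) =
        ((v ^ (-(i₀ : ℤ)) : (ℤ ⧸ J)ˣ) : ℤ ⧸ J) * Ideal.Quotient.mk J (∑ i ∈ S, u i * g ^ i) := by
    intro J hJ
    have h1 : (Ideal.Quotient.mk J g) ^ p = 1 := by
      rw [← map_pow, ← sub_eq_zero, ← map_one (Ideal.Quotient.mk J), ← map_sub]
      exact Ideal.Quotient.eq_zero_iff_mem.2 hJ
    refine ⟨Units.ofPowEqOne _ p h1 hp.ne_zero, rfl, Units.pow_ofPowEqOne h1 hp.ne_zero, ?_⟩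
    rw [map_sum, Finset.mul_sum]
    refine Finset.sum_congr rfl fun j _ => ?_
    rw [sub_eq_add_neg, add_comm, zpow_add, Units.val_mul, zpow_natCast, Units.val_pow_eq_pow_val,
      map_mul, map_pow]
    have : ((Units.ofPowEqOne (Ideal.Quotient.mk J g) p h1 hp.ne_zero : (ℤ ⧸ J)ˣ) : ℤ ⧸ J) =
      Ideal.Quotient.mk J g := rfl
    rw [this]
    ring
  rcases hcore with h | ⟨ν, hν0, hν, hb⟩
  · exfalso
    apply hnd
    obtain ⟨v, hv, hvp, hsum⟩ := hunit _ (Ideal.mem_span_singleton_self _)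
    have h1 := h _ v hv hvp
    rw [hsum, Units.mul_right_eq_zero, Ideal.Quotient.eq_zero_iff_mem, Ideal.mem_span_singleton] at h1
    exact h1
  · obtain ⟨v, hv, hvp, hsum⟩ := hunit (Ideal.span {d}) (Ideal.mem_span_singleton.2 hdM)
    have h1 := hν _ v hv hvp (by
      rw [hsum, Ideal.Quotient.eq_zero_iff_mem.2 (Ideal.mem_span_singleton.2 hd), mul_zero])
    rw [Ideal.mem_span_singleton] at h1
    have h2 : |d| ≤ |ν| := by
      have := Int.natAbs_le_of_dvd_ne_zero h1 hν0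
      rw [Int.abs_eq_natAbs, Int.abs_eq_natAbs]; exact_mod_cast this
    refine h2.trans ?_
    have h3 := hb (Int.castRingHom ℂ)
    have h4 : ∀ z : ℤ, ‖(Int.castRingHom ℂ) z‖ = ((|z| : ℤ) : ℝ) := by
      intro z
      rw [Int.coe_castRingHom, Complex.norm_intCast, Int.cast_abs]
    simp only [h4] at h3
    have h5 : (1 : ℝ) ≤ ((|g| : ℤ) : ℝ) := by exact_mod_cast (by omega : (1 : ℤ) ≤ |g|)
    rw [max_eq_right h5] at h3
    have h6 : |ν| ≤ |g| ^ (2 * (p / t)) * (∑ i ∈ S, |u i|) ^ q := by exact_mod_cast h3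
    refine h6.trans ?_
    rw [mul_comm]
    refine mul_le_mul_of_nonneg_right ?_ (by positivity)
    exact pow_le_pow_right₀ hW1 hqt

end Run7.h370
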