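import Pool.Agent.Run7.h370.Irr
import Pool.Agent.Run7.h370.Int

/-!
# Binomials all of whose powers are irreducible
-/

set_option autoImplicit false
set_option maxHeartbeats 1000000

namespace Run7.h370

open Polynomial IntermediateField

universe u

/-- If `c` is not a proper power and not `-4` times a fourth power then all the binomials
`X ^ n - c` are irreducible. -/
theorem capelli {K : Type u} [Field K] (c : K) (h2 : ∀ b : K, b ^ 2 ≠ c)
    (hodd : ∀ ℓ : ℕ, ℓ.Prime → Odd ℓ → ∀ b : K, b ^ ℓ ≠ c) (h4 : ∀ b : K, b ^ 4 ≠ -4 * c) (n : ℕ)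
    (hn : 0 < n) : Irreducible (X ^ n - C c) := by
  rcases Nat.even_or_odd' n with ⟨m, hm | hm⟩
  swap
  · apply X_pow_sub_C_irreducible_of_odd ⟨m, hm⟩
    intro ℓ hℓ hd b
    exact hodd ℓ hℓ (Odd.of_dvd_nat ⟨m, hm⟩ hd) b
  · rw [hm, mul_comm]
    apply X_pow_mul_sub_C_irreducible
    · exact X_pow_sub_C_irreducible_of_prime Nat.prime_two h2
    · intro E _ _ x hx
      obtain ⟨hi, hN⟩ := norm_gen 2 two_pos _ E x hx
      rw [neg_one_sq, one_mul] at hN
      have hxx : (AdjoinSimple.gen K x) ^ 2 = algebraMap K _ c := by
        have h1 : aeval (AdjoinSimple.gen K x) (minpoly K (AdjoinSimple.gen K x)) = 0 :=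
          minpoly.aeval _ _
        rw [minpoly_gen, hx] at h1
        rw [map_sub, map_pow, aeval_X, aeval_C, sub_eq_zero] at h1
        exact h1
      apply irr_pm m (by omega)
      have main2 : ∀ b : K⟮x⟯, ∀ e : K, e ^ 2 = 1 →
          b ^ 2 ≠ algebraMap K _ e * AdjoinSimple.gen K x := by
        intro b e he hb
        obtain ⟨f, hf, hbf⟩ := (adjoin.powerBasis hi).exists_eq_aeval b
        have hf1 : f.natDegree ≤ 1 := by
          rw [adjoin.powerBasis_dim, hx, natDegree_X_pow_sub_C] at hf
          omega
        rw [adjoin.powerBasis_gen] at hbf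
        obtain ⟨t, s, hts⟩ := Polynomial.exists_eq_X_add_C_of_natDegree_le_one hf1
        rw [hts, map_add, map_mul, aeval_X, aeval_C, aeval_C] at hbf
        set y := AdjoinSimple.gen K x with hy
        have h2' : aeval y (C (2 * t * s - e) * X + C (s ^ 2 + t ^ 2 * c)) = 0 := by
          rw [map_add, map_mul, aeval_X, aeval_C, aeval_C]
          rw [hbf] at hb
          simp only [map_sub, map_mul, map_pow, map_ofNat, map_add] at hb hxx ⊢
          linear_combination hb - (algebraMap K _ t) ^ 2 * hxx
        have h3 : (C (2 * t * s - e) * X + C (s ^ 2 + t ^ 2 * c)) = (0 : K[X]) := by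
          by_contra h0
          have h4 := minpoly.degree_le_of_ne_zero K y h0 h2'
          rw [hy, minpoly_gen, hx, degree_X_pow_sub_C two_pos] at h4
          have h5 := h4.trans degree_linear_le
          norm_cast at h5
        obtain ⟨A, hA⟩ : ∃ A : K, A = 2 * t * s - e := ⟨_, rfl⟩
        obtain ⟨B, hB⟩ : ∃ B : K, B = s ^ 2 + t ^ 2 * c := ⟨_, rfl⟩
        rw [← hA, ← hB] at h3
        have h5 := congrArg (fun f => f.coeff 1) h3
        have h6 := congrArg (fun f => f.coeff 0) h3
        simp at h5 h6
        rw [hA] at h5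
        rw [hB] at h6
        have h7 : -4 * c * t ^ 4 = 1 := by
          linear_combination (2 * t * s + e) * h5 + he - 4 * t ^ 2 * h6
        have ht0 : t ≠ 0 := by
          rintro rfl
          simp at h7
        apply h4 t⁻¹
        rw [inv_pow]
        field_simp
        linear_combination -h7
      intro ℓ hℓ b
      rcases hℓ.eq_two_or_odd' with h5 | h5
      · subst h5
        exact ⟨fun h => main2 b 1 (by simp) (by simpa using h),
          fun h => main2 b (-1) (by simp) (by simpa using h)⟩
      · constructor
        · intro hb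
          have h1 := congrArg (Algebra.norm K) hb
          rw [map_pow, hN] at h1
          refine hodd ℓ hℓ h5 (-(Algebra.norm K b)) ?_
          rw [h5.neg_pow, h1, neg_neg]
        · intro hb
          have h1 := congrArg (Algebra.norm K) hb
          rw [map_pow] at h1
          rcases norm_neg' (K := K) _ (AdjoinSimple.gen K x) with h3 | h3 <;> rw [h3, hN] at h1
          · refine hodd ℓ hℓ h5 (-(Algebra.norm K b)) ?_
            rw [h5.neg_pow, h1, neg_neg]
          · rw [neg_neg] at h1
            exact hodd ℓ hℓ h5 _ h1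

end Run7.h370
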