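import Pool.Agent.Run7.h370.Int

/-!
# Rings of integers of the fields of `2 ^ (E + 1)`-th roots of unity
-/

set_option autoImplicit false
set_option maxHeartbeats 1000000

namespace Run7.h370

open Polynomial Finset

/-- The second form of the main alternative. -/
theorem core2 {R K : Type*} [CommRing R] [IsDomain R] [Field K] (ι : R →+* K)
    (hι : Function.Injective ι) (g : R) (q ρ : ℕ) (hq0 : 0 < q)
    (hirr : Irreducible (X ^ q - C (ι g) : K[X])) {I : Type*} (s : Finset I) (κ : I → R)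
    (r : I → ℤ) (hρ : ∀ j ∈ s, |r j| ≤ ρ) :
    (∀ (S : Type) [CommRing S] (π : R →+* S) (y : Sˣ), (y : S) ^ q = π g →
      ∑ j ∈ s, π (κ j) * ((y ^ r j : Sˣ) : S) = 0) ∨
    (∃ ν : R, ν ≠ 0 ∧
      (∀ (S : Type) [CommRing S] (π : R →+* S) (y : Sˣ), (y : S) ^ q = π g →
        ∑ j ∈ s, π (κ j) * ((y ^ r j : Sˣ) : S) = 0 → π ν = 0) ∧
      ∀ σ : R →+* ℂ, ‖σ ν‖ ≤ max 1 ‖σ g‖ ^ (2 * ρ) * (∑ j ∈ s, ‖σ (κ j)‖) ^ q) := by
  set P : R[X] := ∑ j ∈ s, C (κ j) * X ^ (ρ + r j).toNat with hP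
  have hnn : ∀ j ∈ s, 0 ≤ (ρ : ℤ) + r j := fun j hj => by
    have := hρ j hj
    rw [abs_le] at this
    omega
  have heval : ∀ (S : Type) [CommRing S] (π : R →+* S) (y : Sˣ),
      P.eval₂ π (y : S) = ((y ^ ρ : Sˣ) : S) * ∑ j ∈ s, π (κ j) * ((y ^ r j : Sˣ) : S) := by
    intro S _ π y
    rw [hP, eval₂_finsetSum, Finset.mul_sum]
    refine Finset.sum_congr rfl fun j hj => ?_
    rw [eval₂_mul, eval₂_C, eval₂_pow, eval₂_X]
    have e1 : (y : S) ^ (ρ + r j).toNat = ((y ^ ρ : Sˣ) : S) * ((y ^ r j : Sˣ) : S) := by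
      rw [← Units.val_pow_eq_pow_val, ← Units.val_mul]
      congr 1
      rw [← zpow_natCast, Int.toNat_of_nonneg (hnn j hj), zpow_add, zpow_natCast]
    rw [e1]
    ring
  by_cases hd : (X ^ q - C g) ∣ P
  · left
    intro S _ π y hy
    have h1 := heval S π y
    obtain ⟨Q, hQ⟩ := hd
    have h2 : P.eval₂ π (y : S) = 0 := by
      rw [hQ, eval₂_mul, eval₂_sub, eval₂_pow, eval₂_X, eval₂_C, hy, sub_self, zero_mul]
    rw [h2] at h1
    exact (Units.mul_right_eq_zero _).1 h1.symm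
  · right
    refine ⟨resultant (X ^ q - C g) P, res_ne_zero ι hι q hq0 g hirr P hd, ?_, ?_⟩
    · intro S _ π y hy h0
      have h1 := heval S π y
      rw [h0, mul_zero] at h1
      exact res_mem π q hq0 g P y hy h1
    · intro σ
      set G := ‖σ g‖ with hG
      set W := ∑ j ∈ s, ‖σ (κ j)‖ with hW
      have hW0 : 0 ≤ W := Finset.sum_nonneg fun _ _ => norm_nonneg _
      obtain ⟨ξ, hξ0, hξ⟩ : ∃ ξ : ℝ, 0 ≤ ξ ∧ ξ ^ q = G :=
        ⟨G ^ ((q : ℝ)⁻¹), Real.rpow_nonneg (norm_nonneg _) _,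
          Real.rpow_inv_natCast_pow (norm_nonneg _) hq0.ne'⟩
      have hb := res_bound σ q hq0 g P ((max 1 ξ) ^ (2 * ρ) * W) ?_
      · refine hb.trans (le_of_eq ?_)
        rw [mul_pow, ← pow_mul, mul_comm (2 * ρ) q, pow_mul]
        congr 2
        rcases le_total 1 ξ with h | h
        · rw [max_eq_right h, max_eq_right, hξ]
          rw [← hξ]; exact one_le_pow₀ h
        · rw [max_eq_left h, max_eq_left, one_pow]
          rw [← hξ]; exact pow_le_one₀ hξ0 h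
      · intro x hx
        have hx1 : ‖x‖ = ξ := by
          have h1 : ‖x‖ ^ q = ξ ^ q := by rw [hξ, hG, ← hx, norm_pow]
          exact (pow_left_inj₀ (norm_nonneg _) hξ0 hq0.ne').1 h1
        rw [hP, eval₂_finsetSum]
        refine (norm_sum_le _ _).trans ?_
        rw [Finset.mul_sum]
        refine Finset.sum_le_sum fun j hj => ?_
        rw [eval₂_mul, eval₂_C, eval₂_pow, eval₂_X, norm_mul, norm_pow, hx1, mul_comm]
        refine mul_le_mul_of_nonneg_right ?_ (norm_nonneg _)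
        have h2 : (ρ + r j).toNat ≤ 2 * ρ := by
          have := hρ j hj
          rw [abs_le] at this
          omega
        calc ξ ^ (ρ + r j).toNat ≤ (max 1 ξ) ^ (ρ + r j).toNat :=
              pow_le_pow_left₀ hξ0 (le_max_right _ _) _
          _ ≤ _ := pow_le_pow_right₀ (le_max_left _ _) h2

/-- the cyclotomic polynomial of order `2 ^ (E + 1)` -/
noncomputable def cyc (A : Type) [CommRing A] (E : ℕ) : A[X] := X ^ (2 ^ E) + 1

theorem cyc_eq (A : Type) [CommRing A] (E : ℕ) : cyc A E = X ^ (2 ^ E) - C (-1) := by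
  rw [cyc, C_neg, C_1, sub_neg_eq_add]

theorem cyc_monic (A : Type) [CommRing A] (E : ℕ) : (cyc A E).Monic := by
  rw [cyc_eq]; exact monic_X_pow_sub_C _ (by positivity)

theorem cyc_irr (E : ℕ) : Irreducible (cyc ℚ E) := by
  have h1 : cyc ℚ E = cyclotomic (2 ^ (E + 1)) ℚ := by
    rw [cyclotomic_prime_pow_eq_geom_sum Nat.prime_two]
    simp [cyc, Finset.sum_range_succ]
    ring
  rw [h1]
  exact cyclotomic.irreducible_rat (by positivity)

/-- the ring of integers -/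
abbrev RE (E : ℕ) := AdjoinRoot (cyc ℤ E)
/-- the field -/
abbrev KE (E : ℕ) := AdjoinRoot (cyc ℚ E)

instance factE (E : ℕ) : Fact (Irreducible (cyc ℚ E)) := ⟨cyc_irr E⟩

theorem cyc_map (E : ℕ) : (cyc ℤ E).map (Int.castRingHom ℚ) = cyc ℚ E := by simp [cyc]

/-- the inclusion -/
noncomputable def incE (E : ℕ) : RE E →+* KE E :=
  AdjoinRoot.lift ((AdjoinRoot.of (cyc ℚ E)).comp (Int.castRingHom ℚ)) (AdjoinRoot.root (cyc ℚ E)) (by
    rw [← eval₂_map, cyc_map]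
    exact AdjoinRoot.eval₂_root _)

theorem incE_mk (E : ℕ) (f : ℤ[X]) :
    incE E (AdjoinRoot.mk (cyc ℤ E) f) = AdjoinRoot.mk (cyc ℚ E) (f.map (Int.castRingHom ℚ)) := by
  rw [incE, AdjoinRoot.lift_mk, ← eval₂_map]
  rw [← AdjoinRoot.aeval_eq, aeval_def]
  rfl

theorem incE_inj (E : ℕ) : Function.Injective (incE E) := by
  rw [injective_iff_map_eq_zero]
  intro z hz
  obtain ⟨f, rfl⟩ := AdjoinRoot.mk_surjective z
  rw [incE_mk, AdjoinRoot.mk_eq_zero, ← cyc_map] at hz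
  rw [AdjoinRoot.mk_eq_zero]
  exact (Polynomial.map_dvd_map _ (RingHom.injective_int _) (cyc_monic ℤ E)).1 hz

theorem domE (E : ℕ) : IsDomain (RE E) := (incE_inj E).isDomain _

theorem irrE (E : ℕ) (b : ℤ) (hbp : ∀ (ℓ : ℕ) (c : ℤ), 3 ≤ ℓ → Odd ℓ → c ^ ℓ ≠ b) (q : ℕ)
    (hq : Odd q) : Irreducible (X ^ q - C (incE E (b : RE E)) : (KE E)[X]) := by
  apply X_pow_sub_C_irreducible_of_odd hq
  intro ℓ hℓ hd β hβ
  have hodd : Odd ℓ := Odd.of_dvd_nat hq hd
  have hℓ3 : 3 ≤ ℓ := by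
    have := hℓ.two_le
    rcases hodd with ⟨k, hk⟩
    omega
  have h1 : incE E (b : RE E) = algebraMap ℚ (KE E) (b : ℚ) := by
    rw [map_intCast]; simp
  rw [h1] at hβ
  have h2 := congrArg (Algebra.norm ℚ) hβ
  rw [map_pow, Algebra.norm_algebraMap] at h2
  have hfr : Module.finrank ℚ (KE E) = 2 ^ E := by
    have := (AdjoinRoot.powerBasis (cyc_monic ℚ E).ne_zero).finrank
    rw [this, AdjoinRoot.powerBasis_dim, cyc_eq, natDegree_X_pow_sub_C]
  rw [hfr] at h2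
  have hcop : Nat.Coprime ℓ (2 ^ E) := (Nat.Coprime.pow_right E (by
    rw [Nat.coprime_comm]
    exact (Nat.coprime_two_left).2 hodd))
  obtain ⟨x, hx⟩ := (pow_mem_range_pow_of_coprime hcop.symm (b : ℚ)).1 ⟨_, h2⟩
  obtain ⟨c, hc⟩ := rat_pow ℓ hℓ.pos x b hx
  exact hbp ℓ c hℓ3 hodd hc

theorem rootE (E : ℕ) : (AdjoinRoot.root (cyc ℤ E)) ^ (2 ^ E) = -1 := by
  have h : (X ^ (2 ^ E) + 1 : ℤ[X]).eval₂ (AdjoinRoot.of (cyc ℤ E)) (AdjoinRoot.root (cyc ℤ E)) = 0 :=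
    AdjoinRoot.eval₂_root (cyc ℤ E)
  rw [eval₂_add, eval₂_pow, eval₂_X, eval₂_one] at h
  exact eq_neg_of_add_eq_zero_left h

/-- The norm of an element is an integer with the expected properties. -/
theorem normE (E : ℕ) (ν : RE E) (hν : ν ≠ 0) (B : ℝ)
    (hB : ∀ σ : RE E →+* ℂ, ‖σ ν‖ ≤ B) :
    ∃ n : ℤ, n ≠ 0 ∧ |(n : ℝ)| ≤ B ^ (2 ^ E) ∧
      ∀ (S : Type) [CommRing S] (π : RE E →+* S), π ν = 0 → (n : S) = 0 := by
  obtain ⟨f, rfl⟩ := AdjoinRoot.mk_surjective ν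
  have hf : ¬ (X ^ (2 ^ E) - C (-1) : ℤ[X]) ∣ f := by
    rw [← cyc_eq]
    intro h
    exact hν (AdjoinRoot.mk_eq_zero.2 h)
  refine ⟨resultant (X ^ (2 ^ E) - C (-1)) f, ?_, ?_, ?_⟩
  · refine res_ne_zero (Int.castRingHom ℚ) (RingHom.injective_int _) (2 ^ E) (by positivity) (-1) ?_ f hf
    have := cyc_irr E
    rw [cyc_eq] at this
    simpa using this
  · have h1 := res_bound (Int.castRingHom ℂ) (2 ^ E) (by positivity) (-1) f B (fun x hx => by
      have h2 : (cyc ℤ E).eval₂ (Int.castRingHom ℂ) x = 0 := by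
        simp only [cyc, eval₂_add, eval₂_pow, eval₂_X, eval₂_one]
        rw [hx]; simp
      have h3 := hB (AdjoinRoot.lift (Int.castRingHom ℂ) x h2)
      rwa [AdjoinRoot.lift_mk] at h3)
    have h4 : ∀ z : ℤ, ‖(Int.castRingHom ℂ) z‖ = |(z : ℝ)| := by
      intro z
      rw [Int.coe_castRingHom, Complex.norm_intCast]
    rwa [h4] at h1
  · intro S _ π h
    have h2 : (π (AdjoinRoot.root (cyc ℤ E))) ^ (2 ^ E) = (Int.castRingHom S) (-1) := by
      rw [← map_pow, rootE]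
      simp
    have h5 := res_mem (Int.castRingHom S) (2 ^ E) (by positivity) (-1) f _ h2 (by
      rw [← h, ← AdjoinRoot.aeval_eq]
      rw [aeval_def, hom_eval₂]
      congr 1
      exact RingHom.ext_int _ _)
    simpa using h5

end Run7.h370
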