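import Pool.Agent.Run7.h370.Luc
import Pool.Agent.Run7.h370.Comb

/-!
# Common divisors of sparse numbers and Fibonacci or Lucas numbers of prime index
-/

set_option autoImplicit false
set_option maxHeartbeats 1000000

namespace Run7.h370

open Pool.Agent.N449.SQ QuadraticAlgebra Finset

theorem U_one (i : ℕ) : U 1 i = Nat.fib i := by
  induction i using Nat.strong_induction_on with
  | _ i ih =>
    match i with
    | 0 => simp [U]
    | 1 => simp [U]
    | i + 2 =>
      rw [U, ih (i + 1) (by omega), ih i (by omega), Nat.fib_add_two]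
      push_cast
      ring

theorem V_one (p : ℕ) (hp : 0 < p) : V 1 p = Nat.fib (p - 1) + Nat.fib (p + 1) := by
  obtain ⟨q, rfl⟩ := Nat.exists_eq_add_of_lt hp
  rw [V_eq, U_one, U_one]
  simp only [zero_add, Nat.add_sub_cancel]
  rw [show q + 1 + 1 = q + 2 from rfl, Nat.fib_add_two]
  push_cast
  ring

theorem eps_one : eps 1 = Real.goldenRatio := by
  unfold eps Real.goldenRatio
  norm_num

theorem hV_one : ∀ (T : ℤ) (r : ℕ), 1 ≤ T → 2 ≤ r → Odd r → V T r ≠ 1 := by
  intro T r hT hr _ h1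
  have := three_le_V T hT r hr
  omega

theorem hs_one (x y : ℤ) : hs 1 ⟨x, y⟩ ≤ ((|x| + 2 * |y| : ℤ) : ℝ) := by
  have := hs_pair (a := 1) le_rfl x y
  norm_num at this ⊢
  exact this

/-- The Lucas numbers with prime index are prime to `10`. -/
theorem coprime_lucas (p : ℕ) (hp : p.Prime) (hp3 : 3 < p) : IsCoprime (V 1 p) 10 := by
  have h1 : IsCoprime (V 1 p) 2 := by
    rw [V_eq, U_one, U_one, one_mul]
    have h2 : Nat.Coprime (Nat.fib p) (Nat.fib 3) := by
      rw [Nat.coprime_iff_gcd_eq_one, ← Nat.fib_gcd]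
      have : Nat.gcd p 3 = 1 := by
        rw [← Nat.coprime_iff_gcd_eq_one, Nat.coprime_primes hp Nat.prime_three]
        omega
      rw [this]; rfl
    have h3 : IsCoprime (Nat.fib p : ℤ) 2 := by
      have := Nat.isCoprime_iff_coprime.2 h2
      simpa [Nat.fib] using this
    have h4 : (2 * (Nat.fib (p + 1) : ℤ) - Nat.fib p) = -(Nat.fib p : ℤ) + 2 * Nat.fib (p + 1) := by ring
    rw [h4]
    exact IsCoprime.add_mul_left_left (h3.neg_left) _
  have h2 : IsCoprime (V 1 p) 5 := by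
    have h3 : (V 1 p) ^ 2 - 5 * (U 1 p) ^ 2 = 4 * (-1) ^ p := by
      have e1 := w_add_star 1 p
      have e2 := sub_star' 1 (w 1 p)
      rw [(w_re_im 1 p).1] at e2
      have e3 : w 1 p * star (w 1 p) = (-1) ^ p := by
        rw [star_w, mul_left_comm, ← w_add]
        simp [w_zero]
      have e4 := dl_sq 1
      have e5 : (((V 1 p) ^ 2 - 5 * (U 1 p) ^ 2 : ℤ) : R 1) = ((4 * (-1) ^ p : ℤ) : R 1) := by
        push_cast
        rw [← e3]
        push_cast at e4
        linear_combination (-(w 1 p + star (w 1 p)) - (V 1 p : R 1)) * e1 +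
          ((w 1 p - star (w 1 p)) + (U 1 p : R 1) * dl 1) * e2 + (U 1 p : R 1) ^ 2 * e4
      have e6 := congrArg QuadraticAlgebra.re e5
      simpa only [re_intCast, Int.cast_id] using e6
    have h4 : IsCoprime ((V 1 p) ^ 2) 5 := by
      have h5 : (V 1 p) ^ 2 = 4 * (-1) ^ p + 5 * (U 1 p) ^ 2 := by linarith
      rw [h5]
      refine IsCoprime.add_mul_left_left ?_ _
      rcases neg_one_pow_eq_or ℤ p with h | h <;> rw [h]
      · exact ⟨-1, 1, by norm_num⟩
      · exact ⟨1, 1, by norm_num⟩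
    exact IsCoprime.of_isCoprime_of_dvd_left h4 (Dvd.intro_left (V 1 p ^ 1) (by ring))
  have := h1.mul_right h2
  norm_num at this
  exact this

/-- Common divisors of a sparse number and of a Fibonacci or Lucas number of prime index. -/
theorem fibMain (p : ℕ) (hp : p.Prime) (M d : ℤ)
    (hM : M = Nat.fib p ∨ M = Nat.fib (p - 1) + Nat.fib (p + 1))
    (S : Finset ℕ) (x x' : ℕ → ℤ) (t : ℕ) (ht : 0 < t) (hts : t ^ S.card < p)
    (hd : d ∣ ∑ i ∈ S, (x i * Nat.fib i + x' i * Nat.fib (i + 1))) (hdM : d ∣ M)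
    (hnd : ¬ M ∣ ∑ i ∈ S, (x i * Nat.fib i + x' i * Nat.fib (i + 1))) :
    |(d : ℝ)| ≤ (2 * ∑ i ∈ S, (|(x i : ℝ)| + 2 * |(x' i : ℝ)|)) ^ (2 * t ^ S.card) *
      Real.goldenRatio ^ (2 * (p / t)) := by
  set W : ℝ := ∑ i ∈ S, (|(x i : ℝ)| + 2 * |(x' i : ℝ)|) with hW
  -- `W` is at least one
  have hW1 : 1 ≤ W := by
    by_contra hcon
    apply hnd
    have h0 : ∀ i ∈ S, x i = 0 ∧ x' i = 0 := by
      intro i hi
      have h1 : (|(x i : ℝ)| + 2 * |(x' i : ℝ)|) ≤ W :=
        Finset.single_le_sum (f := fun i => |(x i : ℝ)| + 2 * |(x' i : ℝ)|)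
          (fun i _ => by positivity) hi
      have h2 : |(x i : ℝ)| < 1 := by
        have := abs_nonneg (x' i : ℝ)
        linarith
      have h3 : |(x' i : ℝ)| < 1 := by
        have := abs_nonneg (x i : ℝ)
        linarith
      have h4 : |x i| < 1 := by exact_mod_cast h2
      have h5 : |x' i| < 1 := by exact_mod_cast h3
      rw [abs_lt] at h4 h5
      omega
    rw [Finset.sum_eq_zero fun i hi => by rw [(h0 i hi).1, (h0 i hi).2]; ring]
    exact dvd_zero _
  have hg1 := Real.one_lt_goldenRatio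
  have hts0 : 0 < t ^ S.card := pow_pos ht _
  -- small divisors
  have hsmall : |(d : ℝ)| ≤ 4 → |(d : ℝ)| ≤ (2 * W) ^ (2 * t ^ S.card) *
      Real.goldenRatio ^ (2 * (p / t)) := by
    intro h
    have h1 : (4 : ℝ) ≤ (2 * W) ^ (2 * t ^ S.card) := by
      calc (4 : ℝ) = 2 ^ 2 := by norm_num
        _ ≤ (2 * W) ^ 2 := pow_le_pow_left₀ (by norm_num) (by linarith) _
        _ ≤ _ := pow_le_pow_right₀ (by linarith) (by omega)
    have h2 : 1 ≤ Real.goldenRatio ^ (2 * (p / t)) := one_le_pow₀ hg1.le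
    nlinarith
  by_cases hp3 : p ≤ 3
  · apply hsmall
    have h1 : |M| ≤ 4 ∧ M ≠ 0 := by
      have h2 := hp.two_le
      interval_cases p <;> rcases hM with h | h <;> rw [h] <;> norm_num [Nat.fib]
    have h2 : |d| ≤ |M| := by
      have := Int.natAbs_le_of_dvd_ne_zero hdM h1.2
      rw [Int.abs_eq_natAbs, Int.abs_eq_natAbs]; exact_mod_cast this
    have h3 : |d| ≤ 4 := h2.trans h1.1
    exact_mod_cast h3
  have hp2 : p ≠ 2 := by omega
  obtain ⟨N, hN⟩ : ∃ N : ℤ, N = ∑ i ∈ S, (x i * Nat.fib i + x' i * Nat.fib (i + 1)) := ⟨_, rfl⟩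
  rw [← hN] at hd hnd
  have hN' : N = ∑ i ∈ S, ((⟨x i, x' i⟩ : R 1) * w 1 i).im := by
    rw [hN]
    exact Finset.sum_congr rfl fun i _ => by rw [mul_w_im, U_one, U_one]
  have hH : ∑ i ∈ S, hs 1 (⟨x i, x' i⟩ : R 1) ≤ W := by
    rw [hW]
    refine Finset.sum_le_sum fun i _ => ?_
    have := hs_one (x i) (x' i)
    push_cast at this
    exact this
  have hH0 : 0 ≤ ∑ i ∈ S, hs 1 (⟨x i, x' i⟩ : R 1) := Finset.sum_nonneg fun _ _ => hs_nonneg _ _
  rcases hM with h | h
  · obtain ⟨q, r, hq0, hqt, hr, hρ⟩ := dirichlet p t hp.pos ht S (fun i => ((i / 2 : ℕ) : ℤ)) hts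
    have h1 := fibo (a := 1) le_rfl hV_one p q (p / t) hp hp2 hq0 (by omega) S
      (fun i => ⟨x i, x' i⟩) r hr hρ N d hN' hd (by rw [U_one, ← h]; exact hdM)
    rcases h1 with h2 | h2
    · exact absurd (by rw [h, ← U_one]; exact h2) hnd
    · refine h2.trans ?_
      rw [eps_one]
      refine mul_le_mul_of_nonneg_right ?_ (by positivity)
      have hφ : Real.goldenRatio + Real.goldenRatio⁻¹ ≤ 3 := by
        have h3 : Real.goldenRatio⁻¹ ≤ 1 := inv_le_one_of_one_le₀ hg1.le
        have h4 := Real.goldenRatio_lt_two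
        linarith
      have hφ0 : 0 ≤ Real.goldenRatio + Real.goldenRatio⁻¹ := by positivity
      calc _ ≤ (3 * W) ^ q := pow_le_pow_left₀ (by positivity)
              (mul_le_mul hφ hH hH0 (by norm_num)) _
        _ ≤ ((2 * W) ^ 2) ^ q := pow_le_pow_left₀ (by positivity) (by nlinarith) _
        _ = (2 * W) ^ (2 * q) := by rw [← pow_mul]
        _ ≤ _ := pow_le_pow_right₀ (by linarith) (by omega)
  · obtain ⟨q, r, hq0, hqt, hr, hρ⟩ := dirichlet p t hp.pos ht S (fun i => (i : ℤ)) hts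
    have h1 := lucas (a := 1) le_rfl hV_one p q (p / t) hp hp2 hq0 (by omega) S
      (fun i => ⟨x i, x' i⟩) r hr hρ N d hN' hd (by rw [V_one p hp.pos, ← h]; exact hdM)
    rcases h1 with h2 | h2
    · exfalso
      apply hnd
      rw [h, ← V_one p hp.pos]
      have h3 : V 1 p ∣ 10 * N := by
        have e : 2 * (((1 : ℤ) ^ 2 + 4) * N) = 10 * N := by ring
        rwa [e] at h2
      exact (coprime_lucas p hp (by omega)).dvd_of_dvd_mul_left h3
    · refine h2.trans ?_
      rw [eps_one]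
      refine mul_le_mul_of_nonneg_right ?_ (by positivity)
      calc _ ≤ (2 * W) ^ (2 * q) := pow_le_pow_left₀ (by positivity) (by linarith) _
        _ ≤ _ := pow_le_pow_right₀ (by linarith) (by omega)

end Run7.h370
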