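import Pool.Agent.Run7.h370.Fib

/-!
# Zeckendorf digits
-/

set_option autoImplicit false
set_option maxHeartbeats 1000000

namespace Run7.h370

theorem zeck (d : ℕ) :
    ∃ S : Finset ℕ, S.card = d.zeckendorf.length ∧
      (d : ℤ) = ∑ i ∈ S, ((1 : ℤ) * Nat.fib i + (0 : ℤ) * Nat.fib (i + 1)) := by
  have hnd : d.zeckendorf.Nodup := by
    have h1 := Nat.isZeckendorfRep_zeckendorf d
    have h2 : (d.zeckendorf ++ [0]).Pairwise (fun a b => b + 2 ≤ a) := by
      have : IsTrans ℕ (fun a b => b + 2 ≤ a) := ⟨fun a b c h1 h2 => by omega⟩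
      exact List.isChain_iff_pairwise.1 h1
    exact (List.pairwise_append.1 h2).1.imp (fun h => by omega)
  refine ⟨d.zeckendorf.toFinset, List.toFinset_card_of_nodup hnd, ?_⟩
  have h3 : ∑ i ∈ d.zeckendorf.toFinset, Nat.fib i = d := by
    rw [List.sum_toFinset _ hnd, Nat.sum_zeckendorf_fib]
  conv_lhs => rw [← h3]
  push_cast
  exact Finset.sum_congr rfl fun i _ => by ring

theorem zeck_pos (d : ℕ) (h : d ≠ 0) : 0 < d.zeckendorf.length := by
  rw [List.length_pos_iff]
  intro h0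
  have := Nat.sum_zeckendorf_fib d
  rw [h0] at this
  simp at this
  exact h this.symm

theorem golden_le_fib (n : ℕ) : Real.goldenRatio ^ n ≤ Nat.fib (n + 2) := by
  induction n using Nat.strong_induction_on with
  | _ n ih =>
    match n with
    | 0 => simp
    | 1 =>
      have := Real.goldenRatio_lt_two
      norm_num [Nat.fib]
      linarith
    | n + 2 =>
      have h1 := ih n (by omega)
      have h2 := ih (n + 1) (by omega)
      rw [Nat.fib_add_two (n := n + 2)]
      push_cast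
      have h3 : Real.goldenRatio ^ (n + 2) = Real.goldenRatio ^ (n + 1) + Real.goldenRatio ^ n := by
        rw [pow_add, Real.goldenRatio_sq]; ring
      rw [h3]
      linarith

theorem golden_le (p : ℕ) (hp : p.Prime) (M : ℕ)
    (hM : M = Nat.fib p ∨ M = Nat.fib (p - 1) + Nat.fib (p + 1)) :
    Real.goldenRatio ^ (p - 2) ≤ (M : ℝ) := by
  obtain ⟨n, rfl⟩ := Nat.exists_eq_add_of_le' hp.two_le
  have h1 := golden_le_fib n
  rw [Nat.add_sub_cancel]
  refine h1.trans ?_
  have h2 : Nat.fib (n + 2) ≤ M := by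
    rcases hM with h | h
    · exact h.ge
    · rw [h]
      exact (Nat.fib_le_fib_succ).trans (Nat.le_add_left _ _)
  exact_mod_cast h2

theorem fib_le_golden (n : ℕ) : (Nat.fib (n + 1) : ℝ) ≤ Real.goldenRatio ^ n := by
  induction n using Nat.strong_induction_on with
  | _ n ih =>
    match n with
    | 0 => simp
    | 1 =>
      have := Real.one_lt_goldenRatio
      norm_num [Nat.fib]
      linarith
    | n + 2 =>
      have h1 := ih n (by omega)
      have h2 := ih (n + 1) (by omega)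
      rw [Nat.fib_add_two (n := n + 1)]
      push_cast
      have h3 : Real.goldenRatio ^ (n + 2) = Real.goldenRatio ^ (n + 1) + Real.goldenRatio ^ n := by
        rw [pow_add, Real.goldenRatio_sq]; ring
      rw [h3]
      linarith

theorem sum_fib (ℓ : ℕ) : ∑ m ∈ Finset.range ℓ, (Nat.fib (m + 2) : ℤ) ≤ Nat.fib (ℓ + 3) := by
  have : ∑ m ∈ Finset.range ℓ, (Nat.fib (m + 2) : ℤ) + 2 = Nat.fib (ℓ + 3) := by
    induction ℓ with
    | zero => simp [Nat.fib]
    | succ ℓ ih =>
      have h1 : (Nat.fib (ℓ + 1 + 3) : ℤ) = Nat.fib (ℓ + 2) + Nat.fib (ℓ + 3) := by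
        rw [show ℓ + 1 + 3 = (ℓ + 2) + 2 by ring, Nat.fib_add_two (n := ℓ + 2)]
        push_cast
        rfl
      rw [Finset.sum_range_succ, h1, ← ih]
      ring
  omega

/-- A number whose Zeckendorf digits are covered by few short intervals. -/
theorem blocks (N : ℕ) (T : Finset ℕ) (ℓ : ℕ)
    (h : ∀ i ∈ N.zeckendorf, ∃ j ∈ T, j ≤ i ∧ i < j + ℓ) :
    ∃ x x' : ℕ → ℤ, (N : ℤ) = ∑ j ∈ T, (x j * Nat.fib j + x' j * Nat.fib (j + 1)) ∧
      ∑ j ∈ T, (|(x j : ℝ)| + 2 * |(x' j : ℝ)|) ≤ T.card * Real.goldenRatio ^ (ℓ + 2) := by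
  classical
  have hnd : N.zeckendorf.Nodup := by
    have h1 := Nat.isZeckendorfRep_zeckendorf N
    have h2 : (N.zeckendorf ++ [0]).Pairwise (fun a b => b + 2 ≤ a) := by
      have : IsTrans ℕ (fun a b => b + 2 ≤ a) := ⟨fun a b c h1 h2 => by omega⟩
      exact List.isChain_iff_pairwise.1 h1
    exact (List.pairwise_append.1 h2).1.imp (fun h => by omega)
  obtain ⟨D, hD⟩ : ∃ D : Finset ℕ, D = N.zeckendorf.toFinset := ⟨_, rfl⟩
  have hDN : ∑ i ∈ D, Nat.fib i = N := by
    rw [hD, List.sum_toFinset _ hnd, Nat.sum_zeckendorf_fib]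
  have hDT : ∀ i ∈ D, ∃ j ∈ T, j ≤ i ∧ i < j + ℓ := fun i hi => h i (by rw [hD] at hi; simpa using hi)
  choose! f hfT hf1 hf2 using hDT
  have hsplit : ∀ i ∈ D, (Nat.fib i : ℤ) =
      ((Nat.fib (i - f i + 1) : ℤ) - Nat.fib (i - f i)) * Nat.fib (f i) +
        (Nat.fib (i - f i) : ℤ) * Nat.fib (f i + 1) := by
    intro i hi
    obtain ⟨m, hm⟩ := Nat.exists_eq_add_of_le (hf1 i hi)
    have e0 : i - f i = m := by omega
    rw [e0]
    rcases m with _ | m
    · rw [add_zero] at hm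
      rw [← hm]; simp
    · have e1 := Nat.fib_add (f i) m
      have e2 : Nat.fib i = Nat.fib (f i + m + 1) := congrArg Nat.fib (by omega)
      rw [e2, e1, Nat.fib_add_two (n := m)]
      push_cast
      ring
  refine ⟨fun j => ∑ i ∈ D with f i = j, ((Nat.fib (i - f i + 1) : ℤ) - Nat.fib (i - f i)),
    fun j => ∑ i ∈ D with f i = j, (Nat.fib (i - f i) : ℤ), ?_, ?_⟩
  · rw [← hDN]
    push_cast
    rw [← Finset.sum_fiberwise_of_maps_to (g := f) (t := T) hfT]
    refine Finset.sum_congr rfl fun j _ => ?_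
    rw [Finset.sum_mul, Finset.sum_mul, ← Finset.sum_add_distrib]
    refine Finset.sum_congr rfl fun i hi => ?_
    obtain ⟨hiD, hij⟩ := Finset.mem_filter.1 hi
    rw [hsplit i hiD, hij]
  · rw [← nsmul_eq_mul]
    apply Finset.sum_le_card_nsmul
    intro j _
    have hmono : ∀ m : ℕ, (0 : ℤ) ≤ (Nat.fib (m + 1) : ℤ) - Nat.fib m := fun m => by
      have := Nat.fib_le_fib_succ (n := m)
      omega
    have h1 : |∑ i ∈ D with f i = j, ((Nat.fib (i - f i + 1) : ℤ) - Nat.fib (i - f i))| +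
        2 * |∑ i ∈ D with f i = j, (Nat.fib (i - f i) : ℤ)| ≤ Nat.fib (ℓ + 3) := by
      rw [abs_of_nonneg (Finset.sum_nonneg fun i _ => hmono _),
        abs_of_nonneg (Finset.sum_nonneg fun i _ => by positivity), Finset.mul_sum,
        ← Finset.sum_add_distrib]
      have h2 : ∑ i ∈ D with f i = j, (((Nat.fib (i - f i + 1) : ℤ) - Nat.fib (i - f i)) +
          2 * (Nat.fib (i - f i) : ℤ)) = ∑ i ∈ D with f i = j, (Nat.fib ((i - j) + 2) : ℤ) := by
        refine Finset.sum_congr rfl fun i hi => ?_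
        obtain ⟨hiD, hij⟩ := Finset.mem_filter.1 hi
        rw [hij, Nat.fib_add_two]
        push_cast
        ring
      rw [h2]
      have hinj : Set.InjOn (fun i => i - j) (D.filter (fun i => f i = j) : Set ℕ) := by
        intro a ha b hb hab
        have ha' := Finset.mem_filter.1 ha
        have hb' := Finset.mem_filter.1 hb
        have h3 := hf1 a ha'.1
        have h4 := hf1 b hb'.1
        rw [ha'.2] at h3
        rw [hb'.2] at h4
        simp only at hab
        omega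
      rw [← Finset.sum_image (f := fun m => (Nat.fib (m + 2) : ℤ)) hinj]
      refine le_trans (Finset.sum_le_sum_of_subset_of_nonneg ?_ (fun _ _ _ => by positivity))
        (sum_fib ℓ)
      intro m hm
      obtain ⟨i, hi, rfl⟩ := Finset.mem_image.1 hm
      obtain ⟨hiD, hij⟩ := Finset.mem_filter.1 hi
      have h3 := hf1 i hiD
      have h4 := hf2 i hiD
      rw [hij] at h3 h4
      rw [Finset.mem_range]
      omega
    have h5 : ((Nat.fib (ℓ + 3) : ℕ) : ℝ) ≤ Real.goldenRatio ^ (ℓ + 2) := fib_le_golden (ℓ + 2)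
    refine le_trans ?_ h5
    have h6 := (Int.cast_le (R := ℝ)).2 h1
    rw [Int.cast_add, Int.cast_mul, Int.cast_abs, Int.cast_abs, Int.cast_natCast] at h6
    exact h6

/-- The asymptotic form. -/
theorem asymp (δ : ℝ) (hδ : 0 < δ) : ∃ c : ℝ, 0 < c ∧ ∀ (p k ℓ : ℕ) (D : ℝ), 0 < p → 0 < k → 0 < ℓ →
    Real.exp (δ * p) ≤ D →
    (∀ t : ℕ, 0 < t → t ^ k < p →
      D ≤ (2 * ((k : ℝ) * Real.goldenRatio ^ (ℓ + 2))) ^ (2 * t ^ k) *
        Real.goldenRatio ^ (2 * (p / t))) →
    c * Real.log (p / ℓ) ≤ k := by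
  obtain ⟨t, ht⟩ := exists_nat_gt (4 / δ)
  have ht0 : (0 : ℝ) < t := lt_trans (by positivity) ht
  have ht0' : 0 < t := by exact_mod_cast ht0
  have hφ : Real.log Real.goldenRatio < 1 := by
    have h1 := Real.log_le_sub_one_of_pos Real.goldenRatio_pos
    have h2 := Real.goldenRatio_lt_two
    linarith
  have hφ0 := Real.log_pos Real.one_lt_goldenRatio
  set C₀ : ℝ := max 1 (20 / δ) with hC₀
  have hC1 : 1 ≤ C₀ := le_max_left _ _
  have hl1 : 0 < Real.log (2 * t) := by
    apply Real.log_pos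
    have : (1 : ℝ) ≤ t := by exact_mod_cast ht0'
    linarith
  have hl2 : 0 ≤ Real.log C₀ := Real.log_nonneg hC1
  refine ⟨(Real.log (2 * t) + Real.log C₀)⁻¹, by positivity, ?_⟩
  intro p k ℓ D hp hk hℓ hD h
  have hk1 : (1 : ℝ) ≤ k := by exact_mod_cast hk
  have hℓ1 : (1 : ℝ) ≤ ℓ := by exact_mod_cast hℓ
  have hp0 : (0 : ℝ) < p := by exact_mod_cast hp
  -- the main inequality
  have key : (p : ℝ) ≤ (2 * t) ^ k * C₀ * ℓ := by
    by_cases htk : t ^ k < p
    swap
    · have h1 : (p : ℝ) ≤ (t : ℝ) ^ k := by exact_mod_cast not_lt.1 htk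
      have h2 : (t : ℝ) ^ k ≤ (2 * t) ^ k := pow_le_pow_left₀ ht0.le (by linarith) _
      have h3 : (0 : ℝ) < (2 * t) ^ k := by positivity
      have h4 : (2 * (t : ℝ)) ^ k ≤ (2 * t) ^ k * C₀ := le_mul_of_one_le_right h3.le hC1
      have h5 : (2 * (t : ℝ)) ^ k * C₀ ≤ (2 * t) ^ k * C₀ * ℓ := le_mul_of_one_le_right (by positivity) hℓ1
      linarith
    · have h1 := hD.trans (h t ht0' htk)
      have h2 := Real.log_le_log (Real.exp_pos _) h1
      have hpos0 : (0 : ℝ) < Real.goldenRatio ^ (ℓ + 2) := pow_pos Real.goldenRatio_pos _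
      have hpos1 : (0 : ℝ) < (2 * ((k : ℝ) * Real.goldenRatio ^ (ℓ + 2))) ^ (2 * t ^ k) := by positivity
      have hpos2 : (0 : ℝ) < Real.goldenRatio ^ (2 * (p / t)) := pow_pos Real.goldenRatio_pos _
      rw [Real.log_exp, Real.log_mul hpos1.ne' hpos2.ne', Real.log_pow, Real.log_pow, ← mul_assoc 2,
        Real.log_mul (by positivity) hpos0.ne', Real.log_pow] at h2
      push_cast at h2
      have h3 : ((p / t : ℕ) : ℝ) ≤ p / t := Nat.cast_div_le
      have h4 : (p : ℝ) / t ≤ p * δ / 4 := by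
        rw [div_le_div_iff₀ ht0 (by norm_num)]
        have : 4 < δ * t := by
          rw [div_lt_iff₀ hδ] at ht
          linarith
        nlinarith
      have h5 : Real.log (2 * (k : ℝ)) ≤ 2 * k - 1 := Real.log_le_sub_one_of_pos (by positivity)
      have h6 : 2 * ((p / t : ℕ) : ℝ) * Real.log Real.goldenRatio ≤ p * δ / 2 := by
        have h7 : (0 : ℝ) ≤ ((p / t : ℕ) : ℝ) := by positivity
        nlinarith
      have h7 : (k : ℝ) ≤ 2 ^ k := by exact_mod_cast (Nat.lt_two_pow_self).le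
      have h7' : (1 : ℝ) ≤ 2 ^ k := one_le_pow₀ (by norm_num)
      have h8 : (0 : ℝ) < (t : ℝ) ^ k := by positivity
      have h9 : Real.log (2 * (k : ℝ)) + ((ℓ : ℝ) + 2) * Real.log Real.goldenRatio ≤ 5 * (2 ^ k * ℓ) := by
        have e1 : ((ℓ : ℝ) + 2) * Real.log Real.goldenRatio ≤ (ℓ + 2) * 1 :=
          mul_le_mul_of_nonneg_left hφ.le (by positivity)
        have e2 : (2 : ℝ) ^ k ≤ 2 ^ k * ℓ := le_mul_of_one_le_right (by positivity) hℓ1
        have e3 : (ℓ : ℝ) ≤ 2 ^ k * ℓ := le_mul_of_one_le_left (by positivity) h7'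
        nlinarith
      have h10 : δ * p / 2 ≤ 10 * ((t : ℝ) ^ k * 2 ^ k * ℓ) := by
        have e1 := mul_le_mul_of_nonneg_left h9 (by positivity : (0 : ℝ) ≤ 2 * (t : ℝ) ^ k)
        nlinarith
      have h11 : (2 * (t : ℝ)) ^ k = (t : ℝ) ^ k * 2 ^ k := by rw [mul_pow, mul_comm]
      rw [h11]
      have h12 : (p : ℝ) ≤ ((t : ℝ) ^ k * 2 ^ k) * (20 / δ) * ℓ := by
        rw [mul_div_assoc', div_mul_eq_mul_div, le_div_iff₀ hδ]
        linarith
      refine h12.trans ?_
      refine mul_le_mul_of_nonneg_right ?_ (by positivity)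
      exact mul_le_mul_of_nonneg_left (le_max_right _ _) (by positivity)
  have h1 : Real.log (p / ℓ) ≤ Real.log ((2 * t) ^ k * C₀) := by
    apply Real.log_le_log (by positivity)
    rw [div_le_iff₀ (by positivity)]
    exact key
  rw [Real.log_mul (by positivity) (by positivity), Real.log_pow] at h1
  rw [inv_mul_le_iff₀ (by positivity)]
  nlinarith

end Run7.h370
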