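import Pool.Agent.Run7.h370.Cap

/-!
# Common divisors of sparse numbers and `g ^ p - 1`, second version
-/

set_option autoImplicit false
set_option maxHeartbeats 1000000

namespace Run7.h370

open Polynomial Finset

/-- The main theorem for integers, with irreducibility as a hypothesis. -/
theorem intMain' (g : ℤ) (hg2 : 2 ≤ |g|)
    (hirr : ∀ q : ℕ, 0 < q → Irreducible (X ^ q - C ((Int.castRingHom ℚ) g) : ℚ[X])) (p : ℕ)
    (hp : p.Prime) (S : Finset ℕ) (u : ℕ → ℤ) (t : ℕ) (ht : 0 < t) (hts : t ^ (S.card - 1) < p)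
    (d : ℤ) (hd : d ∣ ∑ i ∈ S, u i * g ^ i) (hdM : d ∣ g ^ p - 1)
    (hnd : ¬ g ^ p - 1 ∣ ∑ i ∈ S, u i * g ^ i) :
    |d| ≤ (∑ i ∈ S, |u i|) ^ (t ^ (S.card - 1)) * |g| ^ (2 * (p / t)) := by
  classical
  -- the sum of the coefficients
  have hS : S.Nonempty := by
    by_contra h
    rw [Finset.not_nonempty_iff_eq_empty] at h
    subst h
    simp at hnd
  have hW1 : 1 ≤ ∑ i ∈ S, |u i| := by
    by_contra hcon
    apply hnd
    have h0 : ∀ i ∈ S, u i = 0 := by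
      intro i hi
      have h1 : |u i| ≤ ∑ i ∈ S, |u i| :=
        Finset.single_le_sum (f := fun i => |u i|) (fun i _ => abs_nonneg _) hi
      have h2 : |u i| = 0 := by
        have := abs_nonneg (u i)
        omega
      exact abs_eq_zero.1 h2
    rw [Finset.sum_eq_zero fun i hi => by rw [h0 i hi, zero_mul]]
    exact dvd_zero _
  obtain ⟨i₀, hi₀⟩ := hS
  have hcard : (S.erase i₀).card = S.card - 1 := Finset.card_erase_of_mem hi₀
  obtain ⟨q, r, hq0, hqt, hr, hρ⟩ := dirichlet p t hp.pos ht (S.erase i₀)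
    (fun i => (i : ℤ) - (i₀ : ℤ)) (by rw [hcard]; exact hts)
  rw [hcard] at hqt
  have hqp : q < p := by omega
  have hcore := core (Int.castRingHom ℚ) (RingHom.injective_int _) g p q (p / t) hp hq0 hqp
    (hirr q hq0) S u (fun i => (i : ℤ) - (i₀ : ℤ)) (fun i => if i = i₀ then 0 else r i)
    (by
      intro j hj
      by_cases h : j = i₀
      · simp only [h, if_true, sub_self, mul_zero]
        exact Int.ModEq.refl _
      · simp only [h, if_false]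
        exact hr j (Finset.mem_erase.2 ⟨h, hj⟩))
    (by
      intro j hj
      by_cases h : j = i₀
      · simp only [h, if_true, abs_zero]
        positivity
      · simp only [h, if_false]
        exact hρ j (Finset.mem_erase.2 ⟨h, hj⟩))
  -- a unit in the quotients
  have hunit : ∀ J : Ideal ℤ, g ^ p - 1 ∈ J → ∃ v : (ℤ ⧸ J)ˣ,
      (v : ℤ ⧸ J) = Ideal.Quotient.mk J g ∧ v ^ p = 1 ∧
      ∑ j ∈ S, Ideal.Quotient.mk J (u j) * ((v ^ ((j : ℤ) - (i₀ : ℤ)) : (ℤ ⧸ J)ˣ) : ℤ ⧸ J) =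
        ((v ^ (-(i₀ : ℤ)) : (ℤ ⧸ J)ˣ) : ℤ ⧸ J) * Ideal.Quotient.mk J (∑ i ∈ S, u i * g ^ i) := by
    intro J hJ
    have h1 : (Ideal.Quotient.mk J g) ^ p = 1 := by
      rw [← map_pow, ← sub_eq_zero, ← map_one (Ideal.Quotient.mk J), ← map_sub]
      exact Ideal.Quotient.eq_zero_iff_mem.2 hJ
    refine ⟨Units.ofPowEqOne _ p h1 hp.ne_zero, rfl, Units.pow_ofPowEqOne h1 hp.ne_zero, ?_⟩
    rw [map_sum, Finset.mul_sum]
    refine Finset.sum_congr rfl fun j _ => ?_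
    rw [sub_eq_add_neg, add_comm, zpow_add, Units.val_mul, zpow_natCast, Units.val_pow_eq_pow_val,
      map_mul, map_pow]
    have : ((Units.ofPowEqOne (Ideal.Quotient.mk J g) p h1 hp.ne_zero : (ℤ ⧸ J)ˣ) : ℤ ⧸ J) =
      Ideal.Quotient.mk J g := rfl
    rw [this]
    ring
  rcases hcore with h | ⟨ν, hν0, hν, hb⟩
  · exfalso
    apply hnd
    obtain ⟨v, hv, hvp, hsum⟩ := hunit _ (Ideal.mem_span_singleton_self _)
    have h1 := h _ v hv hvp
    rw [hsum, Units.mul_right_eq_zero, Ideal.Quotient.eq_zero_iff_mem, Ideal.mem_span_singleton] at h1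
    exact h1
  · obtain ⟨v, hv, hvp, hsum⟩ := hunit (Ideal.span {d}) (Ideal.mem_span_singleton.2 hdM)
    have h1 := hν _ v hv hvp (by
      rw [hsum, Ideal.Quotient.eq_zero_iff_mem.2 (Ideal.mem_span_singleton.2 hd), mul_zero])
    rw [Ideal.mem_span_singleton] at h1
    have h2 : |d| ≤ |ν| := by
      have := Int.natAbs_le_of_dvd_ne_zero h1 hν0
      rw [Int.abs_eq_natAbs, Int.abs_eq_natAbs]; exact_mod_cast this
    refine h2.trans ?_
    have h3 := hb (Int.castRingHom ℂ)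
    have h4 : ∀ z : ℤ, ‖(Int.castRingHom ℂ) z‖ = ((|z| : ℤ) : ℝ) := by
      intro z
      rw [Int.coe_castRingHom, Complex.norm_intCast, Int.cast_abs]
    simp only [h4] at h3
    have h5 : (1 : ℝ) ≤ ((|g| : ℤ) : ℝ) := by exact_mod_cast (by omega : (1 : ℤ) ≤ |g|)
    rw [max_eq_right h5] at h3
    have h6 : |ν| ≤ |g| ^ (2 * (p / t)) * (∑ i ∈ S, |u i|) ^ q := by exact_mod_cast h3
    refine h6.trans ?_
    rw [mul_comm]
    refine mul_le_mul_of_nonneg_right ?_ (by positivity)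
    exact pow_le_pow_right₀ hW1 hqt

/-- Irreducibility of `X ^ q + b` for all bases without algebraic factorization. -/
theorem irr_wag (b : ℕ) (hb : 2 ≤ b) (h1 : ∀ a m : ℕ, 2 ≤ a → Odd m → 3 ≤ m → b ≠ a ^ m)
    (h2 : ∀ k : ℕ, b ≠ 4 * k ^ 4) (q : ℕ) (hq : 0 < q) :
    Irreducible (X ^ q - C ((Int.castRingHom ℚ) (-(b : ℤ))) : ℚ[X]) := by
  have hb0 : (0 : ℚ) < b := by exact_mod_cast (by omega : 0 < b)
  have e : (Int.castRingHom ℚ) (-(b : ℤ)) = -(b : ℚ) := by simp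
  rw [e]
  refine capelli _ ?_ ?_ ?_ q hq
  · intro c hc
    nlinarith [sq_nonneg c]
  · intro ℓ hℓ hodd c hc
    have h3 : (-c) ^ ℓ = ((b : ℤ) : ℚ) := by rw [hodd.neg_pow, hc, neg_neg]; simp
    obtain ⟨d, hd⟩ := rat_pow ℓ hℓ.pos _ _ h3
    have hd0 : 0 < d := by
      by_contra hcon
      push Not at hcon
      have := hodd.pow_nonpos hcon
      rw [hd] at this
      omega
    obtain ⟨n, rfl⟩ := Int.eq_ofNat_of_zero_le hd0.le
    have h4 : n ^ ℓ = b := by exact_mod_cast hd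
    have hℓ3 : 3 ≤ ℓ := by
      have := hℓ.two_le
      rcases hodd with ⟨k, hk⟩
      omega
    refine h1 n ℓ ?_ hodd hℓ3 h4.symm
    by_contra hcon
    have : n ≤ 1 := by omega
    interval_cases n
    · simp at hd0
    · rw [one_pow] at h4; omega
  · intro c hc
    have h3 : c ^ 4 = ((4 * b : ℤ) : ℚ) := by rw [hc]; push_cast; ring
    obtain ⟨d, hd⟩ := rat_pow 4 (by norm_num) _ _ h3
    have h4 : Even d := by
      have : Even (d ^ 4) := by rw [hd]; exact ⟨2 * b, by ring⟩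
      exact (Int.even_pow.1 this).1
    obtain ⟨v, hv⟩ := h4
    have h5 : 4 * (v ^ 4) = (b : ℤ) := by
      rw [hv] at hd
      have : (v + v) ^ 4 = 16 * v ^ 4 := by ring
      rw [this] at hd
      linarith
    apply h2 v.natAbs
    have h6 : ((4 * v.natAbs ^ 4 : ℕ) : ℤ) = (b : ℤ) := by
      push_cast
      rw [← h5]
      congr 1
      have : |v| ^ 4 = (|v| ^ 2) ^ 2 := by ring
      rw [this, sq_abs]
      ring
    exact_mod_cast h6.symm

/-- `gcd` form of the main theorem, for `b ^ p + 1`, all bases without algebraic factorization. -/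
theorem gcdWag (b : ℕ) (hb : 2 ≤ b) (h1 : ∀ a m : ℕ, 2 ≤ a → Odd m → 3 ≤ m → b ≠ a ^ m)
    (h2 : ∀ k : ℕ, b ≠ 4 * k ^ 4) (p : ℕ) (hp : p.Prime) (hp2 : p ≠ 2)
    (S : Finset ℕ) (u : ℕ → ℤ) (t : ℕ) (ht : 0 < t) (hts : t ^ (S.card - 1) < p)
    (hnd : ¬ (b : ℤ) ^ p + 1 ∣ ∑ i ∈ S, u i * (b : ℤ) ^ i) :
    (Int.gcd ((b : ℤ) ^ p + 1) (∑ i ∈ S, u i * (b : ℤ) ^ i) : ℤ) ≤
      (∑ i ∈ S, |u i|) ^ (t ^ (S.card - 1)) * (b : ℤ) ^ (2 * (p / t)) := by
  have hodd := hp.odd_of_ne_two hp2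
  have e1 : (-(b : ℤ)) ^ p - 1 = -((b : ℤ) ^ p + 1) := by rw [hodd.neg_pow]; ring
  have e2 : ∑ i ∈ S, ((-1) ^ i * u i) * (-(b : ℤ)) ^ i = ∑ i ∈ S, u i * (b : ℤ) ^ i := by
    refine Finset.sum_congr rfl fun i _ => ?_
    rw [neg_pow (b : ℤ) i]
    have : ((-1 : ℤ) ^ i) * (-1) ^ i = 1 := by rw [← mul_pow]; simp
    linear_combination (u i * (b : ℤ) ^ i) * this
  have h3 := intMain' (-(b : ℤ)) (by rw [abs_neg, Nat.abs_cast]; exact_mod_cast hb)
    (irr_wag b hb h1 h2) p hp S (fun i => (-1) ^ i * u i) t ht hts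
    (Int.gcd ((b : ℤ) ^ p + 1) (∑ i ∈ S, u i * (b : ℤ) ^ i)) (by rw [e2]; exact Int.gcd_dvd_right _ _)
    (by rw [e1, dvd_neg]; exact Int.gcd_dvd_left _ _) (by rw [e1, e2, neg_dvd]; exact hnd)
  rw [Nat.abs_cast, abs_neg, Nat.abs_cast] at h3
  have e3 : ∑ i ∈ S, |(-1) ^ i * u i| = ∑ i ∈ S, |u i| := by
    refine Finset.sum_congr rfl fun i _ => ?_
    rw [abs_mul, abs_pow, abs_neg, abs_one, one_pow, one_mul]
  rwa [e3] at h3

end Run7.h370
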