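import Mathlib

/-!
# Resultants with binomials
-/

set_option autoImplicit false
set_option maxHeartbeats 1000000

namespace Run7.h370

open Polynomial Finset

theorem res_ne_zero {R K : Type*} [CommRing R] [IsDomain R] [Field K] (ι : R →+* K)
    (hι : Function.Injective ι) (q : ℕ) (hq : 0 < q) (g : R)
    (hirr : Irreducible (X ^ q - C (ι g) : K[X])) (P : R[X]) (h : ¬ (X ^ q - C g) ∣ P) :
    resultant (X ^ q - C g) P ≠ 0 := by
  intro h0
  have hm : (X ^ q - C g : R[X]).Monic := monic_X_pow_sub_C g hq.ne'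
  have e1 : (X ^ q - C g : R[X]).map ι = X ^ q - C (ι g) := by simp
  have h1 := resultant_map_map (X ^ q - C g) P (X ^ q - C g : R[X]).natDegree P.natDegree ι
  rw [h0, map_zero] at h1
  have h2 : resultant ((X ^ q - C g : R[X]).map ι) (P.map ι) = 0 := by
    rw [natDegree_map_eq_of_injective hι, natDegree_map_eq_of_injective hι]
    exact h1
  rw [resultant_eq_zero_iff] at h2
  apply h2.2
  rw [e1]
  rw [(hirr).coprime_iff_not_dvd]
  intro h3
  apply h
  rw [← e1] at h3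
  exact (Polynomial.map_dvd_map ι hι hm).1 h3

theorem res_mem {R S : Type*} [CommRing R] [CommRing S] (π : R →+* S) (q : ℕ) (hq : 0 < q) (g : R)
    (P : R[X]) (y : S) (hy : y ^ q = π g) (hP : P.eval₂ π y = 0) :
    π (resultant (X ^ q - C g) P) = 0 := by
  by_cases hR : Nontrivial R
  swap
  · rw [not_nontrivial_iff_subsingleton] at hR
    rw [Subsingleton.elim (resultant (X ^ q - C g) P) 0, map_zero]
  obtain ⟨A, B, -, -, h⟩ := exists_mul_add_mul_eq_C_resultant (X ^ q - C g : R[X]) P le_rfl le_rfl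
    (Or.inl (by rw [natDegree_X_pow_sub_C]; exact hq.ne'))
  have h1 := congrArg (Polynomial.eval₂ π y) h
  rw [eval₂_add, eval₂_mul, eval₂_mul, eval₂_C, hP, eval₂_sub, eval₂_pow, eval₂_X, eval₂_C, hy] at h1
  simpa using h1.symm

theorem prod_bound (s : Multiset ℂ) (f : ℂ → ℂ) (B : ℝ) (h : ∀ x ∈ s, ‖f x‖ ≤ B) :
    ‖(s.map f).prod‖ ≤ B ^ Multiset.card s := by
  induction s using Multiset.induction_on with
  | empty => simp
  | cons a s ih =>
    rw [Multiset.map_cons, Multiset.prod_cons, Multiset.card_cons, norm_mul, pow_succ']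
    have h1 := h a (Multiset.mem_cons_self a s)
    exact mul_le_mul h1 (ih fun x hx => h x (Multiset.mem_cons_of_mem hx)) (norm_nonneg _)
      ((norm_nonneg _).trans h1)

theorem res_bound {R : Type*} [CommRing R] [Nontrivial R] (σ : R →+* ℂ) (q : ℕ) (hq : 0 < q) (g : R)
    (P : R[X]) (B : ℝ) (hB : ∀ x : ℂ, x ^ q = σ g → ‖P.eval₂ σ x‖ ≤ B) :
    ‖σ (resultant (X ^ q - C g) P)‖ ≤ B ^ q := by
  have e1 : (X ^ q - C g : R[X]).map σ = X ^ q - C (σ g) := by simp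
  have hsp : (X ^ q - C (σ g) : ℂ[X]).Splits := IsAlgClosed.splits _
  have hm : (X ^ q - C (σ g) : ℂ[X]).Monic := monic_X_pow_sub_C _ hq.ne'
  have h1 := resultant_eq_prod_eval (X ^ q - C (σ g)) (P.map σ) P.natDegree natDegree_map_le hsp
  rw [hm.leadingCoeff, one_pow, one_mul] at h1
  have h2 := resultant_map_map (X ^ q - C g) P (X ^ q - C g : R[X]).natDegree P.natDegree σ
  rw [e1, natDegree_X_pow_sub_C] at h2
  rw [natDegree_X_pow_sub_C] at h1
  rw [natDegree_X_pow_sub_C, ← h2, h1]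
  have h3 : Multiset.card (X ^ q - C (σ g) : ℂ[X]).roots = q := by
    rw [← hsp.natDegree_eq_card_roots, natDegree_X_pow_sub_C]
  have h4 := prod_bound (X ^ q - C (σ g) : ℂ[X]).roots (fun x => eval x (Polynomial.map σ P)) B
    (fun x hx => by
      simp only [eval_map]
      apply hB
      have := (mem_roots hm.ne_zero).1 hx
      simpa [sub_eq_zero] using this)
  rwa [h3] at h4

theorem exists_root {S : Type*} [CommRing S] (p q : ℕ) (hp : p.Prime) (hq0 : 0 < q) (hqp : q < p)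
    (u : Sˣ) (hu : u ^ p = 1) :
    ∃ y : Sˣ, y ^ q = u ∧ ∀ m r : ℤ, r ≡ q * m [ZMOD p] → y ^ r = u ^ m := by
  have hcop : Nat.Coprime q p := by
    rw [Nat.coprime_comm]
    exact (Nat.Prime.coprime_iff_not_dvd hp).2 fun hd => by
      have := Nat.le_of_dvd hq0 hd
      omega
  have hbez : (q : ℤ) * Nat.gcdA q p + p * Nat.gcdB q p = 1 := by
    have := Nat.gcd_eq_gcd_ab q p
    rw [hcop] at this
    exact_mod_cast this.symm
  have hup : u ^ (p : ℤ) = 1 := by rw [zpow_natCast, hu]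
  have hy : (u ^ Nat.gcdA q p) ^ (q : ℤ) = u := by
    rw [← zpow_mul, mul_comm, show (q : ℤ) * Nat.gcdA q p = 1 - p * Nat.gcdB q p by linarith,
      zpow_sub, zpow_one, zpow_mul, hup, one_zpow, inv_one, mul_one]
  refine ⟨u ^ Nat.gcdA q p, by rw [← zpow_natCast]; exact hy, ?_⟩
  intro m r hr
  obtain ⟨k, hk⟩ := hr.dvd
  have hr' : r = q * m - p * k := by linarith
  rw [hr', zpow_sub, zpow_mul, hy, zpow_mul]
  have : (u ^ Nat.gcdA q p) ^ (p : ℤ) = 1 := by
    rw [← zpow_mul, mul_comm, zpow_mul, hup, one_zpow]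
  rw [this, one_zpow, inv_one, mul_one]

/-- The main alternative. -/
theorem core {R K : Type*} [CommRing R] [IsDomain R] [Field K] (ι : R →+* K)
    (hι : Function.Injective ι) (g : R) (p q ρ : ℕ) (hp : p.Prime) (hq0 : 0 < q) (hqp : q < p)
    (hirr : Irreducible (X ^ q - C (ι g) : K[X])) {I : Type*} (s : Finset I) (κ : I → R)
    (m r : I → ℤ) (hr : ∀ j ∈ s, r j ≡ q * m j [ZMOD p]) (hρ : ∀ j ∈ s, |r j| ≤ ρ) :
    (∀ (J : Ideal R) (u : (R ⧸ J)ˣ), (u : R ⧸ J) = Ideal.Quotient.mk J g → u ^ p = 1 →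
      ∑ j ∈ s, Ideal.Quotient.mk J (κ j) * ((u ^ m j : (R ⧸ J)ˣ) : R ⧸ J) = 0) ∨
    (∃ ν : R, ν ≠ 0 ∧
      (∀ (J : Ideal R) (u : (R ⧸ J)ˣ), (u : R ⧸ J) = Ideal.Quotient.mk J g → u ^ p = 1 →
        ∑ j ∈ s, Ideal.Quotient.mk J (κ j) * ((u ^ m j : (R ⧸ J)ˣ) : R ⧸ J) = 0 → ν ∈ J) ∧
      ∀ σ : R →+* ℂ, ‖σ ν‖ ≤ max 1 ‖σ g‖ ^ (2 * ρ) * (∑ j ∈ s, ‖σ (κ j)‖) ^ q) := by
  set P : R[X] := ∑ j ∈ s, C (κ j) * X ^ (ρ + r j).toNat with hP
  have hnn : ∀ j ∈ s, 0 ≤ (ρ : ℤ) + r j := fun j hj => by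
    have := hρ j hj
    rw [abs_le] at this
    omega
  have heval : ∀ (J : Ideal R) (u y : (R ⧸ J)ˣ),
      (∀ m r : ℤ, r ≡ q * m [ZMOD p] → y ^ r = u ^ m) →
      P.eval₂ (Ideal.Quotient.mk J) (y : R ⧸ J) =
        ((y ^ ρ : (R ⧸ J)ˣ) : R ⧸ J) *
          ∑ j ∈ s, Ideal.Quotient.mk J (κ j) * ((u ^ m j : (R ⧸ J)ˣ) : R ⧸ J) := by
    intro J u y hy
    rw [hP, eval₂_finsetSum, Finset.mul_sum]
    refine Finset.sum_congr rfl fun j hj => ?_
    rw [eval₂_mul, eval₂_C, eval₂_pow, eval₂_X, ← hy (m j) (r j) (hr j hj)]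
    have e1 : ((y : (R ⧸ J)ˣ) : R ⧸ J) ^ (ρ + r j).toNat
        = ((y ^ ρ : (R ⧸ J)ˣ) : R ⧸ J) * ((y ^ r j : (R ⧸ J)ˣ) : R ⧸ J) := by
      rw [← Units.val_pow_eq_pow_val, ← Units.val_mul]
      congr 1
      rw [← zpow_natCast, Int.toNat_of_nonneg (hnn j hj), zpow_add, zpow_natCast]
    rw [e1]
    ring
  by_cases hd : (X ^ q - C g) ∣ P
  · left
    intro J u hu hup
    obtain ⟨y, hyq, hy⟩ := exists_root p q hp hq0 hqp u hup
    have h1 := heval J u y hy
    obtain ⟨Q, hQ⟩ := hd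
    have h2 : P.eval₂ (Ideal.Quotient.mk J) (y : R ⧸ J) = 0 := by
      rw [hQ, eval₂_mul, eval₂_sub, eval₂_pow, eval₂_X, eval₂_C, ← hu, ← hyq]
      push_cast
      ring
    rw [h2] at h1
    exact (Units.mul_right_eq_zero _).1 h1.symm
  · right
    refine ⟨resultant (X ^ q - C g) P, res_ne_zero ι hι q hq0 g hirr P hd, ?_, ?_⟩
    · intro J u hu hup h0
      obtain ⟨y, hyq, hy⟩ := exists_root p q hp hq0 hqp u hup
      have h1 := heval J u y hy
      rw [h0, mul_zero] at h1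
      rw [← Ideal.Quotient.eq_zero_iff_mem]
      refine res_mem (Ideal.Quotient.mk J) q hq0 g P y ?_ h1
      rw [← hu, ← hyq]
      push_cast
      rfl
    · intro σ
      set G := ‖σ g‖ with hG
      set W := ∑ j ∈ s, ‖σ (κ j)‖ with hW
      have hW0 : 0 ≤ W := Finset.sum_nonneg fun _ _ => norm_nonneg _
      obtain ⟨ξ, hξ0, hξ⟩ : ∃ ξ : ℝ, 0 ≤ ξ ∧ ξ ^ q = G :=
        ⟨G ^ ((q : ℝ)⁻¹), Real.rpow_nonneg (norm_nonneg _) _,
          Real.rpow_inv_natCast_pow (norm_nonneg _) hq0.ne'⟩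
      have hb := res_bound σ q hq0 g P ((max 1 ξ) ^ (2 * ρ) * W) ?_
      · refine hb.trans (le_of_eq ?_)
        rw [mul_pow, ← pow_mul, mul_comm (2 * ρ) q, pow_mul]
        congr 2
        rcases le_total 1 ξ with h | h
        · rw [max_eq_right h, max_eq_right, hξ]
          rw [← hξ]; exact one_le_pow₀ h
        · rw [max_eq_left h, max_eq_left, one_pow]
          rw [← hξ]; exact pow_le_one₀ hξ0 h
      · intro x hx
        have hx1 : ‖x‖ = ξ := by
          have h1 : ‖x‖ ^ q = ξ ^ q := by rw [hξ, hG, ← hx, norm_pow]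
          exact (pow_left_inj₀ (norm_nonneg _) hξ0 hq0.ne').1 h1
        rw [hP, eval₂_finsetSum]
        refine (norm_sum_le _ _).trans ?_
        rw [Finset.mul_sum]
        refine Finset.sum_le_sum fun j hj => ?_
        rw [eval₂_mul, eval₂_C, eval₂_pow, eval₂_X, norm_mul, norm_pow, hx1, mul_comm]
        refine mul_le_mul_of_nonneg_right ?_ (norm_nonneg _)
        have h2 : (ρ + r j).toNat ≤ 2 * ρ := by
          have := hρ j hj
          rw [abs_le] at this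
          omega
        calc ξ ^ (ρ + r j).toNat ≤ (max 1 ξ) ^ (ρ + r j).toNat :=
              pow_le_pow_left₀ hξ0 (le_max_right _ _) _
          _ ≤ _ := pow_le_pow_right₀ (le_max_left _ _) h2

end Run7.h370
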