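import Pool.Agent.N449.SQ.Final
import Pool.Agent.Run7.h370.Res
import Pool.Agent.Run7.h370.Irr

/-!
# Common divisors of sparse numbers and of terms of Lucas sequences
-/

set_option autoImplicit false
set_option maxHeartbeats 1000000

namespace Run7.h370

open Pool.Agent.N449.SQ QuadraticAlgebra Finset

/-- complex versions of the two embeddings -/
noncomputable def σ₁ (a : ℤ) : R a →+* ℂ := Complex.ofRealHom.comp (s₁ a)
/-- complex versions of the two embeddings -/
noncomputable def σ₂ (a : ℤ) : R a →+* ℂ := Complex.ofRealHom.comp (s₂ a)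

theorem norm_σ₁ (a : ℤ) (z : R a) : ‖σ₁ a z‖ = |s₁ a z| := by
  simp [σ₁]

theorem norm_σ₂ (a : ℤ) (z : R a) : ‖σ₂ a z‖ = |s₂ a z| := by
  simp [σ₂]

theorem inc_inj (a : ℤ) : Function.Injective (inc a) := by
  intro z w h
  have h1 := congrArg QuadraticAlgebra.re h
  have h2 := congrArg QuadraticAlgebra.im h
  simp [inc] at h1 h2
  exact QuadraticAlgebra.ext h1 h2

theorem mk_zpow {R : Type*} [CommRing R] (J : Ideal R) (g : Rˣ) (u : (R ⧸ J)ˣ)
    (hu : (u : R ⧸ J) = Ideal.Quotient.mk J (g : R)) (m : ℤ) :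
    ((u ^ m : (R ⧸ J)ˣ) : R ⧸ J) = Ideal.Quotient.mk J ((g ^ m : Rˣ) : R) := by
  have h1 : u = Units.map (Ideal.Quotient.mk J : R →* R ⧸ J) g := by
    ext; rw [hu]; rfl
  rw [h1, ← map_zpow]
  rfl

theorem int_dvd {a : ℤ} {x y : ℤ} (h : (x : R a) ∣ (y : R a)) : x ∣ y := by
  obtain ⟨c, hc⟩ := h
  have h1 := congrArg QuadraticAlgebra.re hc
  simp only [re_mul, re_intCast, im_intCast, Int.cast_id] at h1
  exact ⟨c.re, by linarith⟩

theorem mul_star_eq (a : ℤ) (z : R a) : z * star z = ((norm z : ℤ) : R a) := by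
  have := algebraMap_norm_eq_mul_star (z := z)
  rw [← this]
  simp

theorem dl_sq (a : ℤ) : dl a * dl a = ((a ^ 2 + 4 : ℤ) : R a) := by
  ext
  · simp only [dl, re_mul, re_intCast, Int.cast_id]; ring
  · simp only [dl, im_mul, im_intCast]; ring

theorem star_int (a : ℤ) (x : ℤ) : star (x : R a) = (x : R a) := by ext <;> simp

theorem norm_tw₁ (a : ℤ) (i : ℕ) (z : R a) : ‖σ₁ a (-((-1) ^ i * star z))‖ = |s₂ a z| := by
  rw [norm_σ₁, map_neg, abs_neg, map_mul, abs_mul, map_pow, map_neg, map_one, abs_pow, abs_neg,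
    abs_one, one_pow, one_mul, s₁_star]

theorem norm_tw₂ (a : ℤ) (i : ℕ) (z : R a) : ‖σ₂ a (-((-1) ^ i * star z))‖ = |s₁ a z| := by
  rw [norm_σ₂, map_neg, abs_neg, map_mul, abs_mul, map_pow, map_neg, map_one, abs_pow, abs_neg,
    abs_one, one_pow, one_mul, s₂_star]

theorem abs_norm_eq (a : ℤ) (z : R a) : |((norm z : ℤ) : ℝ)| = |s₁ a z| * |s₂ a z| := by
  rw [norm_eq, abs_mul]

section
variable {a : ℤ} (ha : 1 ≤ a)
include ha

/-- companion sequence -/
theorem lucas (hV : ∀ (T : ℤ) (r : ℕ), 1 ≤ T → 2 ≤ r → Odd r → V T r ≠ a) (p q ρ : ℕ)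
    (hp : p.Prime) (hp2 : p ≠ 2) (hq0 : 0 < q) (hqp : q < p)
    (S : Finset ℕ) (c : ℕ → R a) (r : ℕ → ℤ) (hr : ∀ i ∈ S, r i ≡ q * i [ZMOD p])
    (hρ : ∀ i ∈ S, |r i| ≤ ρ) (N d : ℤ) (hN : N = ∑ i ∈ S, (c i * w a i).im) (hdN : d ∣ N)
    (hdV : d ∣ V a p) :
    V a p ∣ 2 * ((a ^ 2 + 4) * N) ∨
      |(d : ℝ)| ≤ (2 * ∑ i ∈ S, hs a (c i)) ^ (2 * q) * eps a ^ (2 * ρ) := by
  have hdom := isDomain ha
  have hF := fact ha
  have hpo : Odd p := hp.odd_of_ne_two hp2
  have he0 := eps_pos a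
  have he1 := one_lt_eps ha
  have hom : inc a ((wu a : (R a)ˣ) : R a) = (ω : K a) := by ext <;> simp [inc, wu]
  have hZ : ∑ i ∈ S, (c i * w a i - star (c i * w a i)) = (N : R a) * dl a := by
    rw [hN]
    push_cast
    rw [Finset.sum_mul]
    exact Finset.sum_congr rfl fun i _ => sub_star' a _
  -- the sum over the pairs
  have hsum : ∀ (J : Ideal (R a)) (u : (R a ⧸ J)ˣ), (u : R a ⧸ J) = Ideal.Quotient.mk J (wu a : R a) →
      ∑ j ∈ S ×ˢ (univ : Finset Bool), Ideal.Quotient.mk J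
        (if j.2 then c j.1 else -((-1) ^ j.1 * star (c j.1))) *
        ((u ^ (if j.2 then (j.1 : ℤ) else -(j.1 : ℤ)) : (R a ⧸ J)ˣ) : R a ⧸ J)
        = Ideal.Quotient.mk J ((N : R a) * dl a) := by
    intro J u hu
    rw [← hZ, Finset.sum_product, map_sum]
    refine Finset.sum_congr rfl fun i _ => ?_
    rw [Fintype.sum_bool]
    simp only [if_true, Bool.false_eq_true, if_false]
    rw [mk_zpow J (wu a) u hu, mk_zpow J (wu a) u hu, ← map_mul, ← map_mul, ← map_add]
    congr 1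
    rw [star_mul, star_w]
    simp only [w]
    ring
  have hlast : V a p ∣ 2 * ((a ^ 2 + 4) * N) ∨
      |(d : ℝ)| ≤ (2 * ∑ i ∈ S, hs a (c i)) ^ (2 * q) * eps a ^ (2 * ρ) := by
    have hcore := core (inc a) (inc_inj a) ((wu a : (R a)ˣ) : R a) p q ρ hp hq0 hqp
      (by rw [hom]; exact irr_om ha hV q hq0) (S ×ˢ (univ : Finset Bool))
      (fun j => if j.2 then c j.1 else -((-1) ^ j.1 * star (c j.1)))
      (fun j => if j.2 then (j.1 : ℤ) else -(j.1 : ℤ))
      (fun j => if j.2 then r j.1 else -(r j.1))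
      (by
        rintro ⟨i, b⟩ hj
        have hi := (Finset.mem_product.1 hj).1
        rcases b with _ | _
        · simp only [Bool.false_eq_true, if_false, mul_neg]
          exact (hr i hi).neg
        · simp only [if_true]
          exact hr i hi)
      (by
        rintro ⟨i, b⟩ hj
        have hi := (Finset.mem_product.1 hj).1
        rcases b with _ | _
        · simp only [Bool.false_eq_true, if_false, abs_neg]
          exact hρ i hi
        · simp only [if_true]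
          exact hρ i hi)
    -- the modulus
    obtain ⟨A, hA⟩ : ∃ A : R a, A = w a p - 1 := ⟨_, rfl⟩
    have hAA : A * star A = -((V a p : ℤ) : R a) := by
      have h1 := w_add_star a p
      have h2 : w a p * star (w a p) = -1 := by
        rw [star_w, hpo.neg_one_pow, neg_one_mul, mul_neg, ← w_add]
        simp [w_zero]
      rw [hA, star_sub, star_one, ← h1]
      linear_combination h2
    have hApow : ((wu a ^ p : (R a)ˣ) : R a) = A + 1 := by
      rw [hA]; simp [w]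
    have hunit : ∀ J : Ideal (R a), A ∈ J → ∃ u : (R a ⧸ J)ˣ,
        (u : R a ⧸ J) = Ideal.Quotient.mk J (wu a : R a) ∧ u ^ p = 1 := by
      intro J hJ
      refine ⟨Units.map (Ideal.Quotient.mk J : R a →* R a ⧸ J) (wu a), rfl, ?_⟩
      rw [← map_pow]
      ext
      have : (Ideal.Quotient.mk J) ((wu a ^ p : (R a)ˣ) : R a) = 1 := by
        rw [hApow, map_add, map_one, Ideal.Quotient.eq_zero_iff_mem.2 hJ, zero_add]
      exact this
    rcases hcore with h | ⟨ν, hν0, hν, hb⟩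
    · left
      have hAJ : A ∈ Ideal.span {A} := Ideal.mem_span_singleton_self A
      obtain ⟨u, hu, hup⟩ := hunit _ hAJ
      have h1 := h _ u hu hup
      rw [hsum _ u hu, Ideal.Quotient.eq_zero_iff_mem, Ideal.mem_span_singleton] at h1
      have h2 : A ∣ (((a ^ 2 + 4) * N : ℤ) : R a) := by
        refine h1.trans ⟨dl a, ?_⟩
        rw [mul_assoc, dl_sq]
        push_cast
        ring
      have h3 : star A ∣ (((a ^ 2 + 4) * N : ℤ) : R a) := by
        obtain ⟨k, hk⟩ := h2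
        refine ⟨star k, ?_⟩
        have := congrArg star hk
        rwa [star_mul', star_int] at this
      apply int_dvd (a := a)
      obtain ⟨k, hk⟩ := h2
      obtain ⟨k', hk'⟩ := h3
      obtain ⟨Z', hZ'⟩ : ∃ Z' : R a, Z' = (((a ^ 2 + 4) * N : ℤ) : R a) := ⟨_, rfl⟩
      rw [← hZ'] at hk hk'
      refine ⟨Z' + k' + k, ?_⟩
      have h4 : A + star A = (V a p : R a) - 2 := by
        rw [← w_add_star, hA, star_sub, star_one]; ring
      push_cast
      have h5 : (2 : R a) * Z' = (V a p : R a) * Z' - A * Z' - star A * Z' := by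
        linear_combination Z' * h4
      have h6 : A * Z' = -((V a p : ℤ) : R a) * k' := by rw [← hAA, hk']; ring
      have h7 : star A * Z' = -((V a p : ℤ) : R a) * k := by rw [← hAA, hk]; ring
      have h8 : (2 : R a) * (((a : R a) ^ 2 + 4) * (N : R a)) = 2 * Z' := by
        rw [hZ']; push_cast; ring
      rw [h8, h5, h6, h7]
      ring
    · right
      have hdJ : (d : R a) ∈ Ideal.span {A, (d : R a)} := Ideal.subset_span (by simp)
      have hAJ : A ∈ Ideal.span {A, (d : R a)} := Ideal.subset_span (by simp)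
      obtain ⟨u, hu, hup⟩ := hunit _ hAJ
      have h1 := hν _ u hu hup (by
        rw [hsum _ u hu, Ideal.Quotient.eq_zero_iff_mem]
        obtain ⟨k, hk⟩ := hdN
        rw [hk]
        push_cast
        rw [mul_assoc]
        exact Ideal.mul_mem_right _ _ hdJ)
      obtain ⟨x, y, hxy⟩ := Ideal.mem_span_pair.1 h1
      have h2 : d ∣ norm ν := by
        apply int_dvd (a := a)
        obtain ⟨k, hk⟩ := hdV
        rw [← mul_star_eq, ← hxy, star_add, star_mul, star_mul]
        have hsd : star (d : R a) = (d : R a) := by ext <;> simp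
        rw [hsd]
        refine ⟨-(k : R a) * x * star x + x * A * star y + y * star x * star A + d * y * star y, ?_⟩
        have h3 : A * star A = -((d : R a) * k) := by rw [hAA, hk]; push_cast; ring
        linear_combination (x * star x) * h3
      have h3 : norm ν ≠ 0 := norm_ne_zero ha hν0
      have h4 : |(d : ℝ)| ≤ |((norm ν : ℤ) : ℝ)| := by
        have := Int.natAbs_le_of_dvd_ne_zero h2 h3
        have h5 : |d| ≤ |norm ν| := by rw [Int.abs_eq_natAbs, Int.abs_eq_natAbs]; exact_mod_cast this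
        exact_mod_cast h5
      rw [abs_norm_eq] at h4
      refine h4.trans ?_
      have hb1 := hb (σ₁ a)
      have hb2 := hb (σ₂ a)
      have hs1 : s₁ a ((wu a : (R a)ˣ) : R a) = eps a := by
        have := s₁_w a 1
        simpa [w] using this
      have hs2 : |s₂ a ((wu a : (R a)ˣ) : R a)| = (eps a)⁻¹ := by
        have := abs_s₂_w a 1
        simpa [w] using this
      have hS1 : ∑ j ∈ S ×ˢ (univ : Finset Bool),
          ‖σ₁ a (if j.2 then c j.1 else -((-1) ^ j.1 * star (c j.1)))‖ ≤ 2 * ∑ i ∈ S, hs a (c i) := by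
        rw [Finset.sum_product, Finset.mul_sum]
        refine Finset.sum_le_sum fun i _ => ?_
        rw [Fintype.sum_bool]
        simp only [if_true, Bool.false_eq_true, if_false]
        rw [norm_tw₁, norm_σ₁]
        have h1 : |s₁ a (c i)| ≤ hs a (c i) := le_max_left _ _
        have h2 : |s₂ a (c i)| ≤ hs a (c i) := le_max_right _ _
        linarith
      have hS2 : ∑ j ∈ S ×ˢ (univ : Finset Bool),
          ‖σ₂ a (if j.2 then c j.1 else -((-1) ^ j.1 * star (c j.1)))‖ ≤ 2 * ∑ i ∈ S, hs a (c i) := by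
        rw [Finset.sum_product, Finset.mul_sum]
        refine Finset.sum_le_sum fun i _ => ?_
        rw [Fintype.sum_bool]
        simp only [if_true, Bool.false_eq_true, if_false]
        rw [norm_tw₂, norm_σ₂]
        have h1 : |s₁ a (c i)| ≤ hs a (c i) := le_max_left _ _
        have h2 : |s₂ a (c i)| ≤ hs a (c i) := le_max_right _ _
        linarith
      rw [norm_σ₁, norm_σ₁, hs1, abs_of_pos he0, max_eq_right he1.le] at hb1
      rw [norm_σ₂, norm_σ₂, hs2, max_eq_left (inv_le_one_of_one_le₀ he1.le), one_pow, one_mul] at hb2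
      have hnn1 : 0 ≤ ∑ j ∈ S ×ˢ (univ : Finset Bool),
          ‖σ₁ a (if j.2 then c j.1 else -((-1) ^ j.1 * star (c j.1)))‖ :=
        Finset.sum_nonneg fun _ _ => norm_nonneg _
      have hnn2 : 0 ≤ ∑ j ∈ S ×ˢ (univ : Finset Bool),
          ‖σ₂ a (if j.2 then c j.1 else -((-1) ^ j.1 * star (c j.1)))‖ :=
        Finset.sum_nonneg fun _ _ => norm_nonneg _
      calc |s₁ a ν| * |s₂ a ν| ≤ (eps a ^ (2 * ρ) * (2 * ∑ i ∈ S, hs a (c i)) ^ q) *
            ((2 * ∑ i ∈ S, hs a (c i)) ^ q) := by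
            refine mul_le_mul (hb1.trans ?_) (hb2.trans ?_) (abs_nonneg _) (by
              have := hnn1.trans hS1
              positivity)
            · exact mul_le_mul_of_nonneg_left (pow_le_pow_left₀ hnn1 hS1 _) (by positivity)
            · exact pow_le_pow_left₀ hnn2 hS2 _
        _ = _ := by ring
  exact hlast

/-- the Lucas sequence -/
theorem fibo (hV : ∀ (T : ℤ) (r : ℕ), 1 ≤ T → 2 ≤ r → Odd r → V T r ≠ a) (p q ρ : ℕ)
    (hp : p.Prime) (hp2 : p ≠ 2) (hq0 : 0 < q) (hqp : q < p)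
    (S : Finset ℕ) (c : ℕ → R a) (r : ℕ → ℤ) (hr : ∀ i ∈ S, r i ≡ q * (i / 2 : ℕ) [ZMOD p])
    (hρ : ∀ i ∈ S, |r i| ≤ ρ) (N d : ℤ) (hN : N = ∑ i ∈ S, (c i * w a i).im) (hdN : d ∣ N)
    (hdU : d ∣ U a p) :
    U a p ∣ N ∨
      |(d : ℝ)| ≤ ((eps a + (eps a)⁻¹) * ∑ i ∈ S, hs a (c i)) ^ q * eps a ^ (2 * ρ) := by
  have hdom := isDomain ha
  have hF := fact ha
  have hpo : Odd p := hp.odd_of_ne_two hp2
  have he0 := eps_pos a
  have he1 := one_lt_eps ha
  have hei : (eps a)⁻¹ ≤ 1 := inv_le_one_of_one_le₀ he1.le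
  have hei0 : 0 < (eps a)⁻¹ := inv_pos.2 he0
  have hee : 2 ≤ eps a + (eps a)⁻¹ := by
    have h1 : eps a * (eps a)⁻¹ = 1 := mul_inv_cancel₀ he0.ne'
    nlinarith [sq_nonneg (eps a - (eps a)⁻¹)]
  have hdl0 : dl a ≠ 0 := by
    intro h
    have := congrArg QuadraticAlgebra.im h
    simp [dl] at this
  have hsw : star (w a p) = -w a (-p) := by
    rw [star_w, hpo.neg_one_pow]; ring
  -- the generator
  obtain ⟨g, hg⟩ : ∃ g : (R a)ˣ, g = -(wu a) ^ 2 := ⟨_, rfl⟩
  have hgv : (g : R a) = -(((wu a : (R a)ˣ) : R a)) ^ 2 := by rw [hg]; simp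
  have hom : inc a (g : R a) = -(ω : K a) ^ 2 := by
    have h0 : inc a ((wu a : (R a)ˣ) : R a) = (ω : K a) := by ext <;> simp [inc, wu]
    rw [hgv, map_neg, map_pow, h0]
  have hgz : ∀ j : ℕ, ((g ^ (j : ℤ) : (R a)ˣ) : R a) = (-1) ^ j * w a (2 * j) := by
    intro j
    rw [zpow_natCast, Units.val_pow_eq_pow_val, hgv, neg_pow, ← pow_mul]
    rw [w, show (2 * (j : ℤ)) = ((2 * j : ℕ) : ℤ) by push_cast; rfl, zpow_natCast,
      Units.val_pow_eq_pow_val]
  have hgz' : ∀ j : ℕ, ((g ^ (-(j : ℤ)) : (R a)ˣ) : R a) = (-1) ^ j * w a (-(2 * j)) := by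
    intro j
    have h1 : ((g ^ (-(j : ℤ)) : (R a)ˣ) : R a) * ((g ^ (j : ℤ) : (R a)ˣ) : R a) = 1 := by
      rw [← Units.val_mul, ← zpow_add]; simp
    rw [hgz] at h1
    have h2 : w a (2 * j) * w a (-(2 * j)) = 1 := by rw [← w_add]; simp [w_zero]
    have h3 : ((-1 : R a) ^ j) * (-1) ^ j = 1 := by
      rw [← pow_add, ← two_mul, pow_mul]; simp
    linear_combination ((-1) ^ j * w a (-(2 * (j : ℤ)))) * h1
      - ((g ^ (-(j : ℤ)) : (R a)ˣ) : R a) * (-1) ^ j * (-1) ^ j * h2 -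
        ((g ^ (-(j : ℤ)) : (R a)ˣ) : R a) * h3
  have hdec : ∀ i : ℕ, ((i : ℕ) : ℤ) = (i % 2 : ℕ) + 2 * ((i / 2 : ℕ) : ℤ) := by
    intro i
    omega
  have hZ : ∑ i ∈ S, (c i * w a i - star (c i * w a i)) = (N : R a) * dl a := by
    rw [hN]
    push_cast
    rw [Finset.sum_mul]
    exact Finset.sum_congr rfl fun i _ => sub_star' a _
  -- the coefficients
  obtain ⟨κ, hκ⟩ : ∃ κ : ℕ × Bool → R a, κ = fun j => if j.2 then
      (-1) ^ (j.1 / 2) * (c j.1 * w a (j.1 % 2 : ℕ)) else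
      -((-1) ^ (j.1 + j.1 / 2) * star (c j.1 * star (w a (-((j.1 % 2 : ℕ) : ℤ))))) := ⟨_, rfl⟩
  have hsum : ∀ (J : Ideal (R a)) (u : (R a ⧸ J)ˣ), (u : R a ⧸ J) = Ideal.Quotient.mk J (g : R a) →
      ∑ j ∈ S ×ˢ (univ : Finset Bool), Ideal.Quotient.mk J (κ j) *
        ((u ^ (if j.2 then ((j.1 / 2 : ℕ) : ℤ) else -((j.1 / 2 : ℕ) : ℤ)) : (R a ⧸ J)ˣ) : R a ⧸ J)
        = Ideal.Quotient.mk J ((N : R a) * dl a) := by
    intro J u hu
    rw [← hZ, Finset.sum_product, map_sum]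
    refine Finset.sum_congr rfl fun i _ => ?_
    rw [Fintype.sum_bool, hκ]
    simp only [if_true, Bool.false_eq_true, if_false]
    rw [mk_zpow J g u hu, mk_zpow J g u hu, ← map_mul, ← map_mul, ← map_add, hgz, hgz']
    congr 1
    have h3 : ((-1 : R a) ^ (i / 2)) * (-1) ^ (i / 2) = 1 := by
      rw [← pow_add, ← two_mul, pow_mul]; simp
    have h4 : w a i = w a (i % 2 : ℕ) * w a (2 * ((i / 2 : ℕ) : ℤ)) := by
      rw [← w_add, ← hdec i]
    have h5 : w a (-(i : ℤ)) = w a (-((i % 2 : ℕ) : ℤ)) * w a (-(2 * ((i / 2 : ℕ) : ℤ))) := by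
      rw [← w_add]
      congr 1
      have := hdec i
      omega
    rw [star_mul', star_mul', star_star, star_w, h5, h4, pow_add]
    linear_combination (c i * w a (i % 2 : ℕ) * w a (2 * ((i / 2 : ℕ) : ℤ)) -
      (-1) ^ i * star (c i) * w a (-((i % 2 : ℕ) : ℤ)) * w a (-(2 * ((i / 2 : ℕ) : ℤ)))) * h3
  have hcore := core (inc a) (inc_inj a) (g : R a) p q ρ hp hq0 hqp
    (by rw [hom]; exact irr_om_sq ha hV q hq0) (S ×ˢ (univ : Finset Bool)) κ
    (fun j => if j.2 then ((j.1 / 2 : ℕ) : ℤ) else -((j.1 / 2 : ℕ) : ℤ))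
    (fun j => if j.2 then r j.1 else -(r j.1))
    (by
      rintro ⟨i, b⟩ hj
      have hi := (Finset.mem_product.1 hj).1
      rcases b with _ | _
      · simp only [Bool.false_eq_true, if_false, mul_neg]
        exact (hr i hi).neg
      · simp only [if_true]
        exact hr i hi)
    (by
      rintro ⟨i, b⟩ hj
      have hi := (Finset.mem_product.1 hj).1
      rcases b with _ | _
      · simp only [Bool.false_eq_true, if_false, abs_neg]
        exact hρ i hi
      · simp only [if_true]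
        exact hρ i hi)
  -- the modulus
  have hB : ((g ^ p : (R a)ˣ) : R a) - 1 = -(w a p * ((U a p : ℤ) : R a) * dl a) := by
    have h1 := sub_star' a (w a p)
    rw [(w_re_im a p).1, hsw] at h1
    have h2 := hgz p
    rw [zpow_natCast, hpo.neg_one_pow] at h2
    rw [h2, mul_assoc, ← h1]
    have h3 : w a (2 * p) = w a p * w a p := by rw [← w_add, two_mul]
    have h4 : w a p * w a (-p) = 1 := by rw [← w_add]; simp [w_zero]
    rw [h3]
    linear_combination h4
  have hunit : ∀ J : Ideal (R a), ((U a p : ℤ) : R a) * dl a ∈ J → ∃ u : (R a ⧸ J)ˣ,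
      (u : R a ⧸ J) = Ideal.Quotient.mk J (g : R a) ∧ u ^ p = 1 := by
    intro J hJ
    refine ⟨Units.map (Ideal.Quotient.mk J : R a →* R a ⧸ J) g, rfl, ?_⟩
    rw [← map_pow]
    ext
    have h1 : ((g ^ p : (R a)ˣ) : R a) - 1 ∈ J := by
      rw [hB, mul_assoc]
      exact J.neg_mem (J.mul_mem_left _ hJ)
    have h2 := Ideal.Quotient.eq_zero_iff_mem.2 h1
    rw [map_sub, map_one, sub_eq_zero] at h2
    exact h2
  rcases hcore with h | ⟨ν, hν0, hν, hb⟩
  · left
    obtain ⟨u, hu, hup⟩ := hunit _ (Ideal.mem_span_singleton_self _)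
    have h1 := h _ u hu hup
    rw [hsum _ u hu, Ideal.Quotient.eq_zero_iff_mem, Ideal.mem_span_singleton] at h1
    apply int_dvd (a := a)
    obtain ⟨k, hk⟩ := h1
    refine ⟨k, mul_right_cancel₀ hdl0 ?_⟩
    rw [hk]; ring
  · right
    obtain ⟨u, hu, hup⟩ := hunit (Ideal.span {(d : R a)}) (by
      rw [Ideal.mem_span_singleton]
      exact (Int.cast_dvd_cast _ _ hdU).mul_right _)
    have h1 := hν _ u hu hup (by
      rw [hsum _ u hu, Ideal.Quotient.eq_zero_iff_mem, Ideal.mem_span_singleton]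
      exact (Int.cast_dvd_cast _ _ hdN).mul_right _)
    rw [Ideal.mem_span_singleton] at h1
    have h2 : d * d ∣ norm ν := by
      apply int_dvd (a := a)
      obtain ⟨k, hk⟩ := h1
      rw [← mul_star_eq, hk, star_mul', star_int]
      push_cast
      exact ⟨k * star k, by ring⟩
    have h3 : norm ν ≠ 0 := norm_ne_zero ha hν0
    have h4 : |(d : ℝ)| * |(d : ℝ)| ≤ |((norm ν : ℤ) : ℝ)| := by
      have := Int.natAbs_le_of_dvd_ne_zero h2 h3
      have h5 : |d * d| ≤ |norm ν| := by rw [Int.abs_eq_natAbs, Int.abs_eq_natAbs]; exact_mod_cast this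
      rw [← abs_mul]
      exact_mod_cast h5
    rw [abs_norm_eq] at h4
    have hb1 := hb (σ₁ a)
    have hb2 := hb (σ₂ a)
    have hw1 := s₁_w a 1
    have hw2 := abs_s₂_w a 1
    have hwu : ((wu a : (R a)ˣ) : R a) = w a 1 := by simp [w]
    have hs1 : |s₁ a (g : R a)| = eps a ^ 2 := by
      rw [hgv, map_neg, abs_neg, map_pow, hwu, hw1, zpow_one, abs_of_pos (by positivity)]
    have hs2 : |s₂ a (g : R a)| = (eps a)⁻¹ ^ 2 := by
      rw [hgv, map_neg, abs_neg, map_pow, hwu, abs_pow, hw2, zpow_neg, zpow_one]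
    set D := eps a + (eps a)⁻¹ with hD
    -- the coefficients
    have hc0 : ∀ i, 0 ≤ hs a (c i) := fun i => hs_nonneg a _
    have hkey : ∀ (x y : ℝ) (i : ℕ), 0 ≤ x → 0 ≤ y → x ≤ hs a (c i) → y ≤ hs a (c i) →
        x * eps a ^ (i % 2) + y * (eps a)⁻¹ ^ (i % 2) ≤ D * hs a (c i) := by
      intro x y i hx hy hx1 hy1
      rcases Nat.mod_two_eq_zero_or_one i with h | h
      · rw [h, pow_zero, pow_zero]
        nlinarith [hc0 i]
      · rw [h, pow_one, pow_one]
        nlinarith [hc0 i]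
    have ew1 : ∀ i : ℕ, |s₁ a (w a ((i % 2 : ℕ) : ℤ))| = eps a ^ (i % 2) := by
      intro i
      rw [s₁_w, zpow_natCast, abs_of_pos (by positivity)]
    have ew2 : ∀ i : ℕ, |s₂ a (w a ((i % 2 : ℕ) : ℤ))| = (eps a)⁻¹ ^ (i % 2) := by
      intro i
      rw [abs_s₂_w, zpow_neg, zpow_natCast, inv_pow]
    have ew3 : ∀ i : ℕ, |s₁ a (w a (-((i % 2 : ℕ) : ℤ)))| = (eps a)⁻¹ ^ (i % 2) := by
      intro i
      rw [s₁_w, zpow_neg, zpow_natCast, abs_of_pos (by positivity), inv_pow]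
    have ew4 : ∀ i : ℕ, |s₂ a (w a (-((i % 2 : ℕ) : ℤ)))| = eps a ^ (i % 2) := by
      intro i
      rw [abs_s₂_w, neg_neg, zpow_natCast]
    have hS1 : ∑ j ∈ S ×ˢ (univ : Finset Bool), ‖σ₁ a (κ j)‖ ≤ D * ∑ i ∈ S, hs a (c i) := by
      rw [Finset.sum_product, Finset.mul_sum]
      refine Finset.sum_le_sum fun i _ => ?_
      rw [Fintype.sum_bool, hκ]
      simp only [if_true, Bool.false_eq_true, if_false]
      rw [norm_tw₁, norm_σ₁, map_mul, map_mul, map_mul, s₂_star, abs_mul, abs_mul, abs_mul, map_pow,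
        map_neg, map_one, abs_pow, abs_neg, abs_one, one_pow, one_mul, ew1, ew3]
      exact hkey _ _ i (abs_nonneg _) (abs_nonneg _) (le_max_left _ _) (le_max_right _ _)
    have hS2 : ∑ j ∈ S ×ˢ (univ : Finset Bool), ‖σ₂ a (κ j)‖ ≤ D * ∑ i ∈ S, hs a (c i) := by
      rw [Finset.sum_product, Finset.mul_sum]
      refine Finset.sum_le_sum fun i _ => ?_
      rw [Fintype.sum_bool, hκ]
      simp only [if_true, Bool.false_eq_true, if_false]
      rw [norm_tw₂, norm_σ₂, map_mul, map_mul, map_mul, s₁_star, abs_mul, abs_mul, abs_mul, map_pow,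
        map_neg, map_one, abs_pow, abs_neg, abs_one, one_pow, one_mul, ew2, ew4]
      rw [add_comm]
      exact hkey _ _ i (abs_nonneg _) (abs_nonneg _) (le_max_left _ _) (le_max_right _ _)
    rw [norm_σ₁, norm_σ₁, hs1, max_eq_right (one_le_pow₀ he1.le)] at hb1
    rw [norm_σ₂, norm_σ₂, hs2, max_eq_left (pow_le_one₀ hei0.le hei), one_pow, one_mul] at hb2
    have hnn1 : 0 ≤ ∑ j ∈ S ×ˢ (univ : Finset Bool), ‖σ₁ a (κ j)‖ :=
      Finset.sum_nonneg fun _ _ => norm_nonneg _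
    have hnn2 : 0 ≤ ∑ j ∈ S ×ˢ (univ : Finset Bool), ‖σ₂ a (κ j)‖ :=
      Finset.sum_nonneg fun _ _ => norm_nonneg _
    have hT0 : 0 ≤ D * ∑ i ∈ S, hs a (c i) := hnn1.trans hS1
    have h5 : |(d : ℝ)| * |(d : ℝ)| ≤ ((D * ∑ i ∈ S, hs a (c i)) ^ q * eps a ^ (2 * ρ)) *
        ((D * ∑ i ∈ S, hs a (c i)) ^ q * eps a ^ (2 * ρ)) := by
      refine h4.trans ?_
      calc |s₁ a ν| * |s₂ a ν| ≤ ((eps a ^ 2) ^ (2 * ρ) * (D * ∑ i ∈ S, hs a (c i)) ^ q) *
            ((D * ∑ i ∈ S, hs a (c i)) ^ q) := by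
            refine mul_le_mul (hb1.trans ?_) (hb2.trans ?_) (abs_nonneg _) (by positivity)
            · exact mul_le_mul_of_nonneg_left (pow_le_pow_left₀ hnn1 hS1 _) (by positivity)
            · exact pow_le_pow_left₀ hnn2 hS2 _
        _ = _ := by ring
    exact abs_le_of_sq_le_sq' (by nlinarith) (by positivity) |>.2

end

end Run7.h370
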