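import Pool.Agent.Run7.h370.Luc
import Pool.Agent.Run7.h370.Comb
import Pool.Agent.Run7.h370.AsymG

/-!
# Common divisors of sparse numbers and solutions of the negative Pell equation
-/

set_option autoImplicit false
set_option maxHeartbeats 1000000

namespace Run7.h370

open Pool.Agent.N449.SQ QuadraticAlgebra Finset

theorem eps_two : eps 2 = 1 + √2 := by
  unfold eps
  have : √(((2 : ℤ) : ℝ) ^ 2 + 4) = 2 * √2 := by
    rw [show (((2 : ℤ) : ℝ) ^ 2 + 4) = 2 ^ 2 * 2 by push_cast; norm_num, Real.sqrt_mul (by positivity),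
      Real.sqrt_sq (by norm_num)]
  rw [this]
  push_cast
  ring

theorem hV_two : ∀ (T : ℤ) (r : ℕ), 1 ≤ T → 2 ≤ r → Odd r → V T r ≠ 2 := by
  intro T r hT hr _ h1
  have := three_le_V T hT r hr
  omega

theorem hs_two (x y : ℤ) : hs 2 ⟨x, y⟩ ≤ ((|x| + 3 * |y| : ℤ) : ℝ) := by
  have := hs_pair (a := 2) (by norm_num) x y
  norm_num at this ⊢
  exact this

theorem pellPow (n : ℕ) : ((1 : ℝ) + √2) ^ n = (V 2 n : ℝ) / 2 + U 2 n * √2 := by
  have h2 : √(2 : ℝ) ^ 2 = 2 := Real.sq_sqrt (by norm_num)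
  have h : ((1 : ℝ) + √2) ^ n = (V 2 n : ℝ) / 2 + U 2 n * √2 ∧
      ((1 : ℝ) + √2) ^ (n + 1) = (V 2 (n + 1) : ℝ) / 2 + U 2 (n + 1) * √2 := by
    induction n with
    | zero => simp [V, U]
    | succ n ih =>
      refine ⟨ih.2, ?_⟩
      have e : ((1 : ℝ) + √2) ^ (n + 1 + 1) = 2 * (1 + √2) ^ (n + 1) + (1 + √2) ^ n := by
        have : ((1 : ℝ) + √2) ^ 2 = 2 * (1 + √2) + 1 := by linear_combination h2
        rw [show n + 1 + 1 = n + 2 from rfl, pow_add, this]
        ring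
      rw [e, ih.1, ih.2, V, U]
      push_cast
      ring
  exact h.1

/-- the two coordinates of a power of `1 + √2` -/
theorem pellCoord (n : ℕ) (x y : ℤ) (h : (x : ℝ) + y * √2 = (1 + √2) ^ n) :
    2 * x = V 2 n ∧ y = U 2 n := by
  have hirr : Irrational √2 := irrational_sqrt_two
  rw [pellPow] at h
  have hyU : y = U 2 n := by
    by_contra hne
    have h1 : ((y : ℝ) - U 2 n) * √2 = ((V 2 n : ℝ) / 2 - x) := by linarith
    have h2 : ((y : ℝ) - U 2 n) ≠ 0 := by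
      intro h0
      apply hne
      have : (y : ℝ) = U 2 n := by linarith
      exact_mod_cast this
    apply hirr
    refine ⟨((V 2 n : ℚ) / 2 - x) / ((y : ℚ) - U 2 n), ?_⟩
    push_cast
    rw [← h1]
    field_simp
  refine ⟨?_, hyU⟩
  rw [hyU] at h
  have : (2 : ℝ) * x = V 2 n := by linarith
  exact_mod_cast this

theorem norm_VU (a : ℤ) (n : ℕ) (hn : Odd n) : (V a n) ^ 2 - (a ^ 2 + 4) * (U a n) ^ 2 = -4 := by
  have e1 := w_add_star a n
  have e2 := sub_star' a (w a n)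
  rw [(w_re_im a n).1] at e2
  have e3 : w a n * star (w a n) = -1 := by
    rw [star_w, hn.neg_one_pow, mul_left_comm, ← w_add]
    simp [w_zero]
  have e4 := dl_sq a
  have e5 : (((V a n) ^ 2 - (a ^ 2 + 4) * (U a n) ^ 2 : ℤ) : R a) = ((-4 : ℤ) : R a) := by
    push_cast
    push_cast at e4
    linear_combination 4 * e3 + (-(w a n + star (w a n)) - (V a n : R a)) * e1 +
      ((w a n - star (w a n)) + (U a n : R a) * dl a) * e2 + (U a n : R a) ^ 2 * e4
  have e6 := congrArg QuadraticAlgebra.re e5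
  simpa only [re_intCast, Int.cast_id] using e6

/-- Pell case of the main theorem. -/
theorem pellMain (n : ℕ) (hn : n.Prime) (hn2 : n ≠ 2) (x y : ℤ)
    (hxy : (x : ℝ) + y * √2 = (1 + √2) ^ n) (M d : ℤ) (hM : M = x ∨ M = y)
    (S : Finset ℕ) (u u' : ℕ → ℤ) (t : ℕ) (ht : 0 < t) (hts : t ^ S.card < n)
    (hd : d ∣ ∑ i ∈ S, (u i * U 2 i + u' i * U 2 (i + 1))) (hdM : d ∣ M)
    (hnd : ¬ M ∣ ∑ i ∈ S, (u i * U 2 i + u' i * U 2 (i + 1))) :
    |(d : ℝ)| ≤ (2 * ∑ i ∈ S, (|(u i : ℝ)| + 3 * |(u' i : ℝ)|)) ^ (2 * t ^ S.card) *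
      (1 + √2) ^ (2 * (n / t)) := by
  obtain ⟨hx, hy⟩ := pellCoord n x y hxy
  set W : ℝ := ∑ i ∈ S, (|(u i : ℝ)| + 3 * |(u' i : ℝ)|) with hW
  have hW1 : 1 ≤ W := by
    by_contra hcon
    apply hnd
    have h0 : ∀ i ∈ S, u i = 0 ∧ u' i = 0 := by
      intro i hi
      have h1 : (|(u i : ℝ)| + 3 * |(u' i : ℝ)|) ≤ W :=
        Finset.single_le_sum (f := fun i => |(u i : ℝ)| + 3 * |(u' i : ℝ)|)
          (fun i _ => by positivity) hi
      have h2 : |(u i : ℝ)| < 1 := by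
        have := abs_nonneg (u' i : ℝ)
        linarith
      have h3 : |(u' i : ℝ)| < 1 := by
        have := abs_nonneg (u i : ℝ)
        linarith
      have h4 : |u i| < 1 := by exact_mod_cast h2
      have h5 : |u' i| < 1 := by exact_mod_cast h3
      rw [abs_lt] at h4 h5
      omega
    rw [Finset.sum_eq_zero fun i hi => by rw [(h0 i hi).1, (h0 i hi).2]; ring]
    exact dvd_zero _
  obtain ⟨N, hN⟩ : ∃ N : ℤ, N = ∑ i ∈ S, (u i * U 2 i + u' i * U 2 (i + 1)) := ⟨_, rfl⟩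
  rw [← hN] at hd hnd
  have hN' : N = ∑ i ∈ S, ((⟨u i, u' i⟩ : R 2) * w 2 i).im := by
    rw [hN]
    exact Finset.sum_congr rfl fun i _ => by rw [mul_w_im]
  have hH : ∑ i ∈ S, hs 2 (⟨u i, u' i⟩ : R 2) ≤ W := by
    rw [hW]
    refine Finset.sum_le_sum fun i _ => ?_
    have := hs_two (u i) (u' i)
    push_cast at this
    exact this
  have hH0 : 0 ≤ ∑ i ∈ S, hs 2 (⟨u i, u' i⟩ : R 2) := Finset.sum_nonneg fun _ _ => hs_nonneg _ _
  have h2 : √(2 : ℝ) ^ 2 = 2 := Real.sq_sqrt (by norm_num)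
  have hs2 : (0 : ℝ) < √2 := Real.sqrt_pos.2 (by norm_num)
  have hs3 : √(2 : ℝ) < 3 / 2 := by nlinarith
  rcases hM with h | h
  · -- the first coordinate
    obtain ⟨q, r, hq0, hqt, hr, hρ⟩ := dirichlet n t hn.pos ht S (fun i => (i : ℤ)) hts
    have h1 := lucas (a := 2) (by norm_num) hV_two n q (n / t) hn hn2 hq0 (by omega) S
      (fun i => ⟨u i, u' i⟩) r hr hρ N d hN' hd (by rw [← hx, ← h]; exact hdM.mul_left _)
    rcases h1 with h2 | h2
    · exfalso
      apply hnd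
      have h3 : 2 * x ∣ 2 * (8 * N) := by
        rw [hx]
        convert h2 using 1
        ring
      have h4 : x ∣ 8 * N := Int.dvd_of_mul_dvd_mul_left (by norm_num) h3
      have h5 : IsCoprime x 8 := by
        have h6 := norm_VU 2 n (hn.odd_of_ne_two hn2)
        rw [← hx] at h6
        have h7 : x * x + 8 * 0 = 2 * (U 2 n) ^ 2 - 1 := by linarith
        have h8 : IsCoprime x 2 := ⟨-x, (U 2 n) ^ 2, by linarith⟩
        have := h8.pow_right (n := 3)
        norm_num at this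
        exact this
      rw [h]
      exact h5.dvd_of_dvd_mul_left h4
    · refine h2.trans ?_
      rw [eps_two]
      refine mul_le_mul_of_nonneg_right ?_ (by positivity)
      calc _ ≤ (2 * W) ^ (2 * q) := pow_le_pow_left₀ (by positivity) (by linarith) _
        _ ≤ _ := pow_le_pow_right₀ (by linarith) (by omega)
  · -- the second coordinate
    obtain ⟨q, r, hq0, hqt, hr, hρ⟩ := dirichlet n t hn.pos ht S (fun i => ((i / 2 : ℕ) : ℤ)) hts
    have h1 := fibo (a := 2) (by norm_num) hV_two n q (n / t) hn hn2 hq0 (by omega) S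
      (fun i => ⟨u i, u' i⟩) r hr hρ N d hN' hd (by rw [← hy, ← h]; exact hdM)
    rcases h1 with h3 | h3
    · exact absurd (by rw [h, hy]; exact h3) hnd
    · refine h3.trans ?_
      rw [eps_two]
      refine mul_le_mul_of_nonneg_right ?_ (by positivity)
      have hφ : (1 + √2) + (1 + √2)⁻¹ ≤ 3 := by
        have e : (1 + √2)⁻¹ = √2 - 1 :=
          inv_eq_of_mul_eq_one_right (by linear_combination h2)
        rw [e]
        linarith
      have hφ0 : 0 ≤ (1 + √2) + (1 + √2)⁻¹ := by positivity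
      calc _ ≤ (3 * W) ^ q := pow_le_pow_left₀ (by positivity)
              (mul_le_mul hφ hH hH0 (by norm_num)) _
        _ ≤ ((2 * W) ^ 2) ^ q := pow_le_pow_left₀ (by positivity) (by nlinarith) _
        _ = (2 * W) ^ (2 * q) := by rw [← pow_mul]
        _ ≤ _ := pow_le_pow_right₀ (by linarith) (by omega)

end Run7.h370

namespace Run7.h370

open Pool.Agent.N449.SQ

theorem UV_nonneg (n : ℕ) : 0 ≤ U 2 n ∧ 0 ≤ V 2 n := by
  induction n using Nat.strong_induction_on with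
  | _ n ih =>
    match n with
    | 0 => simp [U, V]
    | 1 => simp [U, V]
    | n + 2 =>
      have h1 := ih n (by omega)
      have h2 := ih (n + 1) (by omega)
      rw [U, V]
      omega

theorem pellLower (n : ℕ) (hn : Odd n) (hn2 : 2 ≤ n) (x y : ℤ)
    (hxy : (x : ℝ) + y * √2 = (1 + √2) ^ n) (M : ℤ) (hM : M = x ∨ M = y) :
    (1 + √2) ^ (n - 2) ≤ (M : ℝ) := by
  obtain ⟨hx, hy⟩ := pellCoord n x y hxy
  have h1 := norm_VU 2 n hn
  obtain ⟨hU, hV⟩ := UV_nonneg n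
  rw [← hx, ← hy] at h1
  rw [← hy] at hU
  rw [← hx] at hV
  have h2 : √(2 : ℝ) ^ 2 = 2 := Real.sq_sqrt (by norm_num)
  have hs2 : (0 : ℝ) < √2 := Real.sqrt_pos.2 (by norm_num)
  have hs3 : √(2 : ℝ) < 3 / 2 := by nlinarith
  have hs4 : (1 : ℝ) < √2 := by nlinarith
  have hx0 : (0 : ℝ) ≤ x := by exact_mod_cast (by omega : 0 ≤ x)
  have hy0 : (0 : ℝ) ≤ y := by exact_mod_cast hU
  have h3 : (x : ℝ) ^ 2 = 2 * (y : ℝ) ^ 2 - 1 := by
    have : x ^ 2 = 2 * y ^ 2 - 1 := by linarith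
    exact_mod_cast this
  have h4 : (1 + √(2 : ℝ)) ^ n = (1 + √2) ^ (n - 2) * (3 + 2 * √2) := by
    have : (3 + 2 * √(2 : ℝ)) = (1 + √2) ^ 2 := by linear_combination -h2
    rw [this, ← pow_add]
    congr 1
    omega
  have h5 : (1 : ℝ) ≤ (1 + √2) ^ (n - 2) := one_le_pow₀ (by linarith)
  rw [h4] at hxy
  obtain ⟨e, he⟩ : ∃ e : ℝ, e = (1 + √2) ^ (n - 2) := ⟨_, rfl⟩
  rw [← he] at h5 hxy ⊢
  rcases hM with rfl | rfl
  · have h6 : (y : ℝ) * √2 ≤ M + 1 := by
      apply le_of_sq_le_sq _ (by linarith)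
      rw [mul_pow, h2]
      nlinarith
    nlinarith
  · have h6 : (x : ℝ) ≤ M * √2 := by
      apply le_of_sq_le_sq _ (by positivity)
      rw [mul_pow, h2]
      nlinarith
    nlinarith

end Run7.h370
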